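import Pool.Agent.Helper70.EA.Values

/-! MODULE ASYM: `t_m(μ) = D_m(μ+2,0) / D_{m+1}(μ,0) ~ m^{-(μ+1)/3}`.

`t_0 = 1/2` (`DD_zero`, `DD_one`), `t_m = t_{m-1} / ρ⁰_m(μ)`, `ρ⁰` from `rho_even`, `rho_odd` (uses only the statements of
`Values`).  `t_{2n+2} = 1/2 ∏_{j ≤ n} (quotient of linear factors)`, asymptotics from `Real.GammaSeq`. -/
namespace EA
open IP Finset Real

/-- ratio of consecutive even arm probabilities, `μ = 2k`, `m = L - k - 1` -/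
noncomputable def tt (μ m : ℕ) : ℝ := DD m (μ + 2) 0 / DD (m + 1) μ 0

theorem tt_pos (μ m : ℕ) : 0 < tt μ m := div_pos (DD_pos0 _ _) (DD_pos0 _ _)

/-- two-sided comparison with a power -/
def as_Th (f : ℕ → ℝ) (e : ℝ) : Prop := ∃ c C : ℝ, 0 < c ∧ 0 < C ∧ ∀ n : ℕ,
    c * ((n : ℝ) + 1) ^ e ≤ f n ∧ f n ≤ C * ((n : ℝ) + 1) ^ e

theorem as_bdd (u : ℕ → ℝ) (L : ℝ) (hL : 0 < L) (hu : ∀ n, 0 < u n)
    (h : Filter.Tendsto u Filter.atTop (nhds L)) :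
    ∃ c C : ℝ, 0 < c ∧ 0 < C ∧ ∀ n, c ≤ u n ∧ u n ≤ C := by
  obtain ⟨C, hC⟩ := h.bddAbove_range
  obtain ⟨D, hD⟩ := (h.inv₀ hL.ne').bddAbove_range
  have hC' : ∀ n, u n ≤ C := fun n => hC ⟨n, rfl⟩
  have hD' : ∀ n, (u n)⁻¹ ≤ D := fun n => hD ⟨n, rfl⟩
  have hCp : 0 < C := lt_of_lt_of_le (hu 0) (hC' 0)
  have hDp : 0 < D := lt_of_lt_of_le (inv_pos.2 (hu 0)) (hD' 0)
  refine ⟨D⁻¹, C, inv_pos.2 hDp, hCp, fun n => ⟨?_, hC' n⟩⟩
  rw [inv_le_comm₀ hDp (hu n)]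
  exact hD' n

theorem as_Th_of (f : ℕ → ℝ) (e : ℝ) (L : ℝ) (hL : 0 < L) (hf : ∀ n, 0 < f n)
    (h : Filter.Tendsto (fun n : ℕ => f n * ((n : ℝ) + 1) ^ (-e)) Filter.atTop (nhds L)) :
    as_Th f e := by
  have hp : ∀ n : ℕ, 0 < ((n : ℝ) + 1) := fun n => by positivity
  obtain ⟨c, C, hc, hC, H⟩ := as_bdd _ L hL
    (fun n => mul_pos (hf n) (rpow_pos_of_pos (hp n) _)) h
  refine ⟨c, C, hc, hC, fun n => ?_⟩
  obtain ⟨h1, h2⟩ := H n
  have h3 : 0 < ((n : ℝ) + 1) ^ e := rpow_pos_of_pos (hp n) _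
  have h4 : f n = f n * ((n : ℝ) + 1) ^ (-e) * ((n : ℝ) + 1) ^ e := by
    rw [mul_assoc, ← rpow_add (hp n)]
    simp
  constructor
  · rw [h4]
    exact mul_le_mul_of_nonneg_right h1 h3.le
  · rw [h4]
    exact mul_le_mul_of_nonneg_right h2 h3.le

theorem as_Th_mul {f g : ℕ → ℝ} {e e' : ℝ} (hf : as_Th f e) (hg : as_Th g e') :
    as_Th (fun n => f n * g n) (e + e') := by
  obtain ⟨c, C, hc, hC, H⟩ := hf
  obtain ⟨c', C', hc', hC', H'⟩ := hg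
  refine ⟨c * c', C * C', mul_pos hc hc', mul_pos hC hC', fun n => ?_⟩
  obtain ⟨h1, h2⟩ := H n
  obtain ⟨h3, h4⟩ := H' n
  have hp : 0 < ((n : ℝ) + 1) := by positivity
  have h5 : 0 < ((n : ℝ) + 1) ^ e := rpow_pos_of_pos hp _
  have h6 : 0 < ((n : ℝ) + 1) ^ e' := rpow_pos_of_pos hp _
  rw [rpow_add hp]
  constructor
  · calc c * c' * (((n : ℝ) + 1) ^ e * ((n : ℝ) + 1) ^ e')
        = (c * ((n : ℝ) + 1) ^ e) * (c' * ((n : ℝ) + 1) ^ e') := by ring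
      _ ≤ f n * g n := mul_le_mul h1 h3 (by positivity) (le_trans (by positivity) h1)
  · calc f n * g n ≤ (C * ((n : ℝ) + 1) ^ e) * (C' * ((n : ℝ) + 1) ^ e') :=
          mul_le_mul h2 h4 (le_trans (by positivity) h3) (by positivity)
      _ = C * C' * (((n : ℝ) + 1) ^ e * ((n : ℝ) + 1) ^ e') := by ring

theorem as_Th_inv {f : ℕ → ℝ} {e : ℝ} (hf : as_Th f e) :
    as_Th (fun n => (f n)⁻¹) (-e) := by
  obtain ⟨c, C, hc, hC, H⟩ := hf
  refine ⟨C⁻¹, c⁻¹, inv_pos.2 hC, inv_pos.2 hc, fun n => ?_⟩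
  obtain ⟨h1, h2⟩ := H n
  have hp : 0 < ((n : ℝ) + 1) := by positivity
  have h5 : 0 < ((n : ℝ) + 1) ^ e := rpow_pos_of_pos hp _
  have h6 : 0 < f n := lt_of_lt_of_le (by positivity) h1
  rw [rpow_neg hp.le, ← mul_inv, ← mul_inv]
  exact ⟨inv_anti₀ h6 h2, inv_anti₀ (by positivity) h1⟩

theorem as_Th_div {f g : ℕ → ℝ} {e e' : ℝ} (hf : as_Th f e) (hg : as_Th g e') :
    as_Th (fun n => f n / g n) (e - e') := by
  have := as_Th_mul hf (as_Th_inv hg)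
  simpa [div_eq_mul_inv, sub_eq_add_neg] using this

/-- `∏_{j ≤ n} (a+j)/(j+1) ~ n^{a-1}` -/
noncomputable def as_g (a : ℝ) (n : ℕ) : ℝ := ∏ j ∈ range (n + 1), ((a + (j : ℝ)) / ((j : ℝ) + 1))

theorem as_g_pos (a : ℝ) (ha : 0 < a) (n : ℕ) : 0 < as_g a n :=
  prod_pos fun j _ => by positivity

theorem as_g_eq (a : ℝ) (ha : 0 < a) (n : ℕ) (hn : 1 ≤ n) :
    as_g a n * ((n : ℝ) + 1) ^ (-(a - 1)) = ((n : ℝ) / ((n : ℝ) + 1)) ^ a / GammaSeq a n := by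
  have hn' : (0 : ℝ) < n := by exact_mod_cast hn
  have h1 : 0 < ∏ j ∈ range (n + 1), (a + (j : ℝ)) := prod_pos fun j _ => by positivity
  have hf : (0 : ℝ) < n.factorial := by exact_mod_cast n.factorial_pos
  have hq : 0 < ((n : ℝ) + 1) := by positivity
  have h3 : ∏ j ∈ range (n + 1), ((j : ℝ) + 1) = ((n : ℝ) + 1) * n.factorial := by
    have := Finset.prod_range_add_one_eq_factorial (n + 1)
    have h4 : ((∏ j ∈ range (n + 1), (j + 1) : ℕ) : ℝ) = ((n + 1).factorial : ℝ) := by rw [this]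
    rw [Nat.factorial_succ] at h4
    push_cast at h4
    exact h4
  have h5 : 0 < (n : ℝ) ^ a := rpow_pos_of_pos hn' _
  have h6 : 0 < ((n : ℝ) + 1) ^ a := rpow_pos_of_pos hq _
  unfold as_g GammaSeq
  rw [prod_div_distrib, h3, div_rpow hn'.le hq.le, neg_sub, rpow_sub hq, rpow_one]
  field_simp

theorem as_g_Th (a : ℝ) (ha : 0 < a) : as_Th (as_g a) (a - 1) := by
  have hG : 0 < Gamma a := Gamma_pos_of_pos ha
  refine as_Th_of _ _ (1 / Gamma a) (by positivity) (as_g_pos a ha) ?_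
  have h1 : Filter.Tendsto (fun n : ℕ => ((n : ℝ) / ((n : ℝ) + 1))) Filter.atTop (nhds 1) :=
    tendsto_natCast_div_add_atTop (1 : ℝ)
  have h2 : Filter.Tendsto (fun n : ℕ => ((n : ℝ) / ((n : ℝ) + 1)) ^ a) Filter.atTop
      (nhds (1 ^ a)) := h1.rpow_const (Or.inl one_ne_zero)
  rw [one_rpow] at h2
  refine (h2.div (GammaSeq_tendsto_Gamma a) hG.ne').congr' ?_
  filter_upwards [Filter.eventually_ge_atTop 1] with n hn
  rw [as_g_eq a ha n hn]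
  rfl

theorem as_tt_zero (μ : ℕ) : tt μ 0 = 1 / 2 := by
  unfold tt
  rw [DD_zero, DD_one]
  simp [cc]

theorem as_tt_odd (μ j : ℕ) : tt μ (2 * j + 1) =
    4 * (2 * (j : ℝ) + 1) * (μ + 3 * j + 2) * (μ + 3 * j + 3) /
      ((μ + 2 * j + 2) * (μ + 6 * j + 3) * (μ + 6 * j + 5)) * tt μ (2 * j) := by
  unfold tt
  have h := rho_odd j μ
  have p1 := DD_pos0 (2 * j + 2) μ
  have p2 := DD_pos0 (2 * j) (μ + 2)
  have p3 := DD_pos0 (2 * j + 1) μ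
  have p4 := DD_pos0 (2 * j + 1) (μ + 2)
  rw [div_mul_div_comm, div_eq_div_iff (by positivity) (by positivity)]
  linear_combination -h

theorem as_tt_even (μ j : ℕ) : tt μ (2 * j + 2) =
    (μ + 6 * j + 7) / (2 * (μ + 3 * j + 4)) * tt μ (2 * j + 1) := by
  unfold tt
  have h := rho_even j μ
  have p1 := DD_pos0 (2 * j + 3) μ
  have p2 := DD_pos0 (2 * j + 1) (μ + 2)
  have p3 := DD_pos0 (2 * j + 2) μ
  have p4 := DD_pos0 (2 * j + 2) (μ + 2)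
  rw [div_mul_div_comm, div_eq_div_iff (by positivity) (by positivity)]
  linear_combination -h

theorem as_tt_even_eq (μ n : ℕ) : tt μ (2 * n + 2) = 1 / 2 *
    ((as_g (1 / 2) n * as_g (((μ : ℝ) + 2) / 3) n * as_g (((μ : ℝ) + 3) / 3) n *
      as_g (((μ : ℝ) + 7) / 6) n) /
    (as_g (((μ : ℝ) + 2) / 2) n * as_g (((μ : ℝ) + 3) / 6) n * as_g (((μ : ℝ) + 5) / 6) n *
      as_g (((μ : ℝ) + 4) / 3) n)) := by
  induction n with
  | zero =>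
    rw [as_tt_even μ 0, as_tt_odd μ 0]
    have h0 := as_tt_zero μ
    simp only [mul_zero] at *
    rw [h0]
    simp only [as_g, zero_add, prod_range_one, Nat.cast_zero, mul_zero, add_zero]
    field_simp
    try ring
  | succ n ih =>
    have e : ∀ a : ℝ, as_g a (n + 1) = as_g a n * ((a + ((n : ℝ) + 1)) / ((n : ℝ) + 1 + 1)) := by
      intro a
      unfold as_g
      rw [prod_range_succ]
      push_cast
      rfl
    rw [as_tt_even μ (n + 1), as_tt_odd μ (n + 1), show 2 * (n + 1) = 2 * n + 2 by ring, ih]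
    simp only [e]
    have g1 := as_g_pos (((μ : ℝ) + 2) / 2) (by positivity) n
    have g2 := as_g_pos (((μ : ℝ) + 3) / 6) (by positivity) n
    have g3 := as_g_pos (((μ : ℝ) + 5) / 6) (by positivity) n
    have g4 := as_g_pos (((μ : ℝ) + 4) / 3) (by positivity) n
    push_cast
    field_simp
    ring

theorem as_even_Th (μ : ℕ) : as_Th (fun n => tt μ (2 * n + 2)) (-(((μ : ℝ) + 1) / 3)) := by
  have h1 := as_g_Th (1 / 2) (by norm_num)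
  have h2 := as_g_Th (((μ : ℝ) + 2) / 3) (by positivity)
  have h3 := as_g_Th (((μ : ℝ) + 3) / 3) (by positivity)
  have h4 := as_g_Th (((μ : ℝ) + 7) / 6) (by positivity)
  have h5 := as_g_Th (((μ : ℝ) + 2) / 2) (by positivity)
  have h6 := as_g_Th (((μ : ℝ) + 3) / 6) (by positivity)
  have h7 := as_g_Th (((μ : ℝ) + 5) / 6) (by positivity)
  have h8 := as_g_Th (((μ : ℝ) + 4) / 3) (by positivity)
  have h := as_Th_div (as_Th_mul (as_Th_mul (as_Th_mul h1 h2) h3) h4)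
    (as_Th_mul (as_Th_mul (as_Th_mul h5 h6) h7) h8)
  have hc : as_Th (fun _ => (1 / 2 : ℝ)) 0 :=
    ⟨1 / 2, 1 / 2, by norm_num, by norm_num, fun n => by simp⟩
  have h' := as_Th_mul hc h
  have e1 : (fun n => tt μ (2 * n + 2)) = fun n => 1 / 2 *
    ((as_g (1 / 2) n * as_g (((μ : ℝ) + 2) / 3) n * as_g (((μ : ℝ) + 3) / 3) n *
      as_g (((μ : ℝ) + 7) / 6) n) /
    (as_g (((μ : ℝ) + 2) / 2) n * as_g (((μ : ℝ) + 3) / 6) n * as_g (((μ : ℝ) + 5) / 6) n *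
      as_g (((μ : ℝ) + 4) / 3) n)) := funext fun n => as_tt_even_eq μ n
  rw [e1]
  convert h' using 1
  ring

theorem tt_bounds (μ : ℕ) : ∃ c C : ℝ, 0 < c ∧ 0 < C ∧ ∀ m : ℕ,
    c * ((m : ℝ) + 1) ^ (-(((μ : ℝ) + 1) / 3)) ≤ tt μ m ∧
      tt μ m ≤ C * ((m : ℝ) + 1) ^ (-(((μ : ℝ) + 1) / 3)) := by
  obtain ⟨c, C, hc, hC, H⟩ := as_even_Th μ
  set e : ℝ := ((μ : ℝ) + 1) / 3 with he
  have hepos : 0 < e := by positivity
  -- comparison of powers: `(x)^(-e) ≤ (y)^(-e)` for `y ≤ x`, and `(x)^(-e) ≤ (4)^e (y)^(-e)` for `y ≤ 4 x`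
  have hmono : ∀ x y : ℝ, 0 < x → x ≤ y → y ^ (-e) ≤ x ^ (-e) := fun x y hx hxy =>
    rpow_le_rpow_of_nonpos hx hxy (by linarith)
  have hfour : ∀ x y : ℝ, 0 < x → 0 < y → y ≤ 4 * x → x ^ (-e) ≤ 4 ^ e * y ^ (-e) := by
    intro x y hx hy hxy
    have h1 : (4 * x) ^ (-e) ≤ y ^ (-e) := hmono y (4 * x) hy hxy
    rw [mul_rpow (by norm_num) hx.le] at h1
    have h2 : (4 : ℝ) ^ e * ((4 : ℝ) ^ (-e) * x ^ (-e)) = x ^ (-e) := by
      rw [← mul_assoc, ← rpow_add (by norm_num)]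
      simp
    calc x ^ (-e) = (4 : ℝ) ^ e * ((4 : ℝ) ^ (-e) * x ^ (-e)) := h2.symm
      _ ≤ 4 ^ e * y ^ (-e) := mul_le_mul_of_nonneg_left h1 (by positivity)
  -- even indices
  set c1 : ℝ := min (1 / 2) c with hc1
  set C1 : ℝ := max (1 / 2) (4 ^ e * C) with hC1
  have hc1p : 0 < c1 := lt_min (by norm_num) hc
  have hC1p : 0 < C1 := lt_max_of_lt_left (by norm_num)
  have heven : ∀ j : ℕ, c1 * ((j : ℝ) + 1) ^ (-e) ≤ tt μ (2 * j) ∧
      tt μ (2 * j) ≤ C1 * ((j : ℝ) + 1) ^ (-e) := by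
    intro j
    rcases j with _ | n
    · have h0 := as_tt_zero μ
      simp only [mul_zero, Nat.cast_zero, zero_add, one_rpow, mul_one]
      rw [h0]
      exact ⟨min_le_left _ _, le_max_left _ _⟩
    · obtain ⟨h1, h2⟩ := H n
      rw [show 2 * (n + 1) = 2 * n + 2 by ring]
      have p0 : 0 < ((n : ℝ) + 1) := by positivity
      have p1 : 0 < (((n + 1 : ℕ) : ℝ) + 1) := by positivity
      have p2 : 0 < ((n : ℝ) + 1) ^ (-e) := rpow_pos_of_pos p0 _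
      have p3 : 0 < (((n + 1 : ℕ) : ℝ) + 1) ^ (-e) := rpow_pos_of_pos p1 _
      constructor
      · calc c1 * (((n + 1 : ℕ) : ℝ) + 1) ^ (-e) ≤ c * ((n : ℝ) + 1) ^ (-e) :=
            mul_le_mul (min_le_right _ _) (hmono _ _ p0 (by push_cast; linarith)) p3.le hc.le
          _ ≤ _ := h1
      · calc tt μ (2 * n + 2) ≤ C * ((n : ℝ) + 1) ^ (-e) := h2
          _ ≤ C * (4 ^ e * (((n + 1 : ℕ) : ℝ) + 1) ^ (-e)) :=
            mul_le_mul_of_nonneg_left (hfour _ _ p0 p1 (by push_cast; linarith)) hC.le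
          _ = (4 ^ e * C) * (((n + 1 : ℕ) : ℝ) + 1) ^ (-e) := by ring
          _ ≤ C1 * (((n + 1 : ℕ) : ℝ) + 1) ^ (-e) :=
            mul_le_mul_of_nonneg_right (le_max_right _ _) p3.le
  -- odd indices
  have hodd : ∀ j : ℕ, tt μ (2 * j) / ((μ : ℝ) + 2) ≤ tt μ (2 * j + 1) ∧
      tt μ (2 * j + 1) ≤ 4 * tt μ (2 * j) := by
    intro j
    have hp := tt_pos μ (2 * j)
    rw [as_tt_odd]
    have hμ : (0 : ℝ) ≤ μ := Nat.cast_nonneg _
    have hj : (0 : ℝ) ≤ j := Nat.cast_nonneg _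
    have hD : 0 < (((μ : ℝ) + 2 * j + 2) * (μ + 6 * j + 3) * (μ + 6 * j + 5)) := by positivity
    constructor
    · have h1 : 1 / ((μ : ℝ) + 2) ≤ 4 * (2 * (j : ℝ) + 1) * (μ + 3 * j + 2) * (μ + 3 * j + 3) /
          ((μ + 2 * j + 2) * (μ + 6 * j + 3) * (μ + 6 * j + 5)) := by
        rw [div_le_div_iff₀ (by positivity) hD]
        have a1 : ((μ : ℝ) + 2 * j + 2) ≤ (2 * (j : ℝ) + 1) * (μ + 2) := by nlinarith [mul_nonneg hμ hj]
        have a2 : ((μ : ℝ) + 6 * j + 3) ≤ 2 * (μ + 3 * j + 2) := by linarith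
        have a3 : ((μ : ℝ) + 6 * j + 5) ≤ 2 * (μ + 3 * j + 3) := by linarith
        calc 1 * (((μ : ℝ) + 2 * j + 2) * (μ + 6 * j + 3) * (μ + 6 * j + 5))
            = ((μ : ℝ) + 2 * j + 2) * (μ + 6 * j + 3) * (μ + 6 * j + 5) := one_mul _
          _ ≤ ((2 * (j : ℝ) + 1) * (μ + 2)) * (2 * (μ + 3 * j + 2)) * (2 * (μ + 3 * j + 3)) := by
            gcongr
          _ = _ := by ring
      calc tt μ (2 * j) / ((μ : ℝ) + 2) = 1 / ((μ : ℝ) + 2) * tt μ (2 * j) := by ring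
        _ ≤ _ := mul_le_mul_of_nonneg_right h1 hp.le
    · have h1 : 4 * (2 * (j : ℝ) + 1) * (μ + 3 * j + 2) * (μ + 3 * j + 3) /
          ((μ + 2 * j + 2) * (μ + 6 * j + 3) * (μ + 6 * j + 5)) ≤ 4 := by
        rw [div_le_iff₀ hD]
        have a1 : (2 * (j : ℝ) + 1) ≤ ((μ : ℝ) + 2 * j + 2) := by linarith
        have a2 : ((μ : ℝ) + 3 * j + 2) ≤ (μ + 6 * j + 3) := by linarith
        have a3 : ((μ : ℝ) + 3 * j + 3) ≤ (μ + 6 * j + 5) := by linarith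
        calc 4 * (2 * (j : ℝ) + 1) * (μ + 3 * j + 2) * (μ + 3 * j + 3)
            ≤ 4 * ((μ : ℝ) + 2 * j + 2) * (μ + 6 * j + 3) * (μ + 6 * j + 5) := by gcongr
          _ = _ := by ring
      exact mul_le_mul_of_nonneg_right h1 hp.le
  -- both
  refine ⟨c1 / (μ + 2), 4 * (4 ^ e * C1), by positivity, by positivity, fun m => ?_⟩
  rcases Nat.even_or_odd' m with ⟨j, rfl | rfl⟩
  · obtain ⟨h1, h2⟩ := heven j
    have p0 : 0 < ((j : ℝ) + 1) := by positivity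
    have p1 : 0 < (((2 * j : ℕ) : ℝ) + 1) := by positivity
    have p2 : 0 < ((j : ℝ) + 1) ^ (-e) := rpow_pos_of_pos p0 _
    have p3 : 0 < (((2 * j : ℕ) : ℝ) + 1) ^ (-e) := rpow_pos_of_pos p1 _
    have hμ : (0 : ℝ) ≤ μ := Nat.cast_nonneg _
    have hj : (0 : ℝ) ≤ j := Nat.cast_nonneg _
    constructor
    · calc c1 / (μ + 2) * (((2 * j : ℕ) : ℝ) + 1) ^ (-e) ≤ c1 * ((j : ℝ) + 1) ^ (-e) :=
          mul_le_mul (div_le_self hc1p.le (by linarith)) (hmono _ _ p0 (by push_cast; linarith)) p3.le hc1p.le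
        _ ≤ _ := h1
    · calc tt μ (2 * j) ≤ C1 * ((j : ℝ) + 1) ^ (-e) := h2
        _ ≤ C1 * (4 ^ e * (((2 * j : ℕ) : ℝ) + 1) ^ (-e)) :=
          mul_le_mul_of_nonneg_left (hfour _ _ p0 p1 (by push_cast; linarith)) hC1p.le
        _ = 1 * (4 ^ e * C1) * (((2 * j : ℕ) : ℝ) + 1) ^ (-e) := by ring
        _ ≤ 4 * (4 ^ e * C1) * (((2 * j : ℕ) : ℝ) + 1) ^ (-e) := by gcongr; norm_num
  · obtain ⟨h1, h2⟩ := heven j
    obtain ⟨h3, h4⟩ := hodd j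
    have p0 : 0 < ((j : ℝ) + 1) := by positivity
    have p1 : 0 < (((2 * j + 1 : ℕ) : ℝ) + 1) := by positivity
    have p2 : 0 < ((j : ℝ) + 1) ^ (-e) := rpow_pos_of_pos p0 _
    have p3 : 0 < (((2 * j + 1 : ℕ) : ℝ) + 1) ^ (-e) := rpow_pos_of_pos p1 _
    have hμ : (0 : ℝ) ≤ μ := Nat.cast_nonneg _
    have hj : (0 : ℝ) ≤ j := Nat.cast_nonneg _
    constructor
    · calc c1 / (μ + 2) * (((2 * j + 1 : ℕ) : ℝ) + 1) ^ (-e)
          = (c1 * (((2 * j + 1 : ℕ) : ℝ) + 1) ^ (-e)) / (μ + 2) := by ring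
        _ ≤ (c1 * ((j : ℝ) + 1) ^ (-e)) / (μ + 2) := by
          gcongr ?_ / _
          exact mul_le_mul_of_nonneg_left (hmono _ _ p0 (by push_cast; linarith)) hc1p.le
        _ ≤ tt μ (2 * j) / (μ + 2) := by gcongr
        _ ≤ _ := h3
    · calc tt μ (2 * j + 1) ≤ 4 * tt μ (2 * j) := h4
        _ ≤ 4 * (C1 * ((j : ℝ) + 1) ^ (-e)) := by gcongr
        _ ≤ 4 * (C1 * (4 ^ e * (((2 * j + 1 : ℕ) : ℝ) + 1) ^ (-e))) := by
          gcongr 4 * ?_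
          exact mul_le_mul_of_nonneg_left (hfour _ _ p0 p1 (by push_cast; linarith)) hC1p.le
        _ = 4 * (4 ^ e * C1) * (((2 * j + 1 : ℕ) : ℝ) + 1) ^ (-e) := by ring

end EA
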