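import Pool.Agent.Helper70.EA.Defs

/-! MODULE CONF: the homogeneous limit of `G`.

With `ζ = e^{iπ/3}`, `z_i = e^{2 i b_i} = 1 + t_i`, `κ = e^{-iπ/6}/√3`:
`s (b_i - b_j) = (z_i z_j)^{-1/2} (ζ z_i - ζ̄ z_j) / (2i)`, `ζ z_i - ζ̄ z_j = i√3 (1 + κ t_i + κ̄ t_j)`,
`ζ z_i - ζ̄ = i√3 (1 + κ t_i)`, `ζ - ζ̄ z_i = i√3 (1 + κ̄ t_i)`.  Row `i` of the matrix (`x = 0`), after
division by `[(ζ - ζ̄ z_i)(ζ z_i - ζ̄)]^{2k}` and by explicit row and column factors, has the entries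
`g(t_i, t_j)`, `g(t,t') = (1+κt)^{-2k}/(1+κt+κ̄t') + (1+κ̄t)^{-2k}/(1+κ̄t+κt')
  = Σ_{p,q} (-1)^{p+q} C(2k+p+q, p) 3^{-(p+q)/2} 2cos(π(p-q)/6) t^p t'^q`
(from `1/(1+κt+κ̄t') = Σ_q (-κ̄t')^q/(1+κt)^{q+1}`, with exact remainder).
Confluent lemma: `(g(t_i,t_j))_{i,j<m} = T (H A Hᵀ) Tᵀ + R`, `A` = Taylor coefficients of order `< N`, `N = 2m`,
`T_{il} = ∏_{r<l} (t_i - t_r)` (Newton; unitriangular times differences), `H → (1 | 0)`, `R = O(ε^N)`, `T⁻¹ = O(ε^{-(m-1)})`,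
so `det (g(t_i,t_j)) / ∏_{i<j} (t_j - t_i)² → det A_{m×m}`.  (Any other proof is fine.)
Numerically checked for `k, m ≤ 3`. -/
namespace EA
open IP Finset Real

noncomputable section

/-- Newton basis -/
def cf_T (τ : ℕ → ℂ) (t : ℂ) (l : ℕ) : ℂ := ∏ r ∈ range l, (t - τ r)

/-- Newton coefficients of `f / (c + κ t)` -/
def cf_nb (κ c : ℂ) (τ a : ℕ → ℂ) : ℕ → ℂ
  | 0 => a 0 / (c + κ * τ 0)
  | l + 1 => (a (l + 1) - κ * cf_nb κ c τ a l) / (c + κ * τ (l + 1))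

theorem cf_T_succ (τ : ℕ → ℂ) (t : ℂ) (l : ℕ) : cf_T τ t (l + 1) = cf_T τ t l * (t - τ l) :=
  Finset.prod_range_succ _ _

theorem cf_T_zero {τ : ℕ → ℂ} {i l : ℕ} (h : i < l) : cf_T τ (τ i) l = 0 :=
  Finset.prod_eq_zero (Finset.mem_range.2 h) (sub_self _)

theorem cf_nb_spec (κ c : ℂ) (τ a : ℕ → ℂ) (t : ℂ) (M : ℕ) (h : ∀ l, l ≤ M → c + κ * τ l ≠ 0) :
    (c + κ * t) * ∑ l ∈ range (M + 1), cf_nb κ c τ a l * cf_T τ t l =
      ∑ l ∈ range (M + 1), a l * cf_T τ t l + κ * cf_nb κ c τ a M * cf_T τ t (M + 1) := by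
  induction M with
  | zero =>
    have h0 := h 0 le_rfl
    have e : cf_nb κ c τ a 0 * (c + κ * τ 0) = a 0 := by
      show a 0 / (c + κ * τ 0) * (c + κ * τ 0) = a 0
      field_simp
    rw [Finset.sum_range_one, Finset.sum_range_one, cf_T_succ, ← e]
    have : cf_T τ t 0 = 1 := Finset.prod_range_zero _
    rw [this]
    ring
  | succ M ih =>
    have h0 := h (M + 1) le_rfl
    have e : cf_nb κ c τ a (M + 1) * (c + κ * τ (M + 1)) = a (M + 1) - κ * cf_nb κ c τ a M := by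
      show (a (M + 1) - κ * cf_nb κ c τ a M) / (c + κ * τ (M + 1)) * (c + κ * τ (M + 1)) = _
      field_simp
    rw [Finset.sum_range_succ, mul_add, ih (fun l hl => h l (by omega)),
      Finset.sum_range_succ _ (M + 1), cf_T_succ τ t (M + 1)]
    linear_combination (cf_T τ t (M + 1)) * e

/-- Newton coefficients of `∏_{n' < n} (c n' + κ t)⁻¹` -/
def cf_B (κ : ℂ) (c τ : ℕ → ℂ) : ℕ → ℕ → ℂ
  | 0 => fun l => if l = 0 then 1 else 0
  | n + 1 => cf_nb κ (c n) τ (cf_B κ c τ n)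

theorem cf_sum_delta (τ : ℕ → ℂ) (t : ℂ) {m : ℕ} (hm : 0 < m) :
    ∑ l ∈ range m, (if l = 0 then (1 : ℂ) else 0) * cf_T τ t l = 1 := by
  rw [Finset.sum_eq_single 0]
  · rw [if_pos rfl, one_mul]
    exact Finset.prod_range_zero _
  · intro l _ hl
    rw [if_neg hl, zero_mul]
  · intro h
    exact absurd (Finset.mem_range.2 hm) h

theorem cf_B_spec (κ : ℂ) (c τ : ℕ → ℂ) {m i : ℕ} (hi : i < m) (n : ℕ)
    (h : ∀ n' < n, ∀ l < m, c n' + κ * τ l ≠ 0) :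
    ∑ l ∈ range m, cf_B κ c τ n l * cf_T τ (τ i) l = (∏ n' ∈ range n, (c n' + κ * τ i))⁻¹ := by
  induction n with
  | zero =>
    rw [Finset.prod_range_zero, inv_one]
    exact cf_sum_delta τ (τ i) (by omega)
  | succ n ih =>
    have ih' := ih fun n' hn' => h n' (by omega)
    obtain ⟨M, rfl⟩ : ∃ M, m = M + 1 := ⟨m - 1, by omega⟩
    have h1 := cf_nb_spec κ (c n) τ (cf_B κ c τ n) (τ i) M
      (fun l hl => h n (by omega) l (by omega))
    rw [cf_T_zero hi, mul_zero, add_zero, ih'] at h1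
    have h2 := h n (by omega) i hi
    rw [Finset.prod_range_succ, mul_inv]
    show ∑ l ∈ range (M + 1), cf_nb κ (c n) τ (cf_B κ c τ n) l * cf_T τ (τ i) l = _
    rw [← h1]
    field_simp

/-- closed form of the coefficients of a simple fraction -/
theorem cf_nb_delta (κ c : ℂ) (τ : ℕ → ℂ) (l : ℕ) (h : ∀ r, r ≤ l → c + κ * τ r ≠ 0) :
    cf_nb κ c τ (fun l => if l = 0 then 1 else 0) l =
      (-κ) ^ l * (∏ r ∈ range (l + 1), (c + κ * τ r))⁻¹ := by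
  induction l with
  | zero =>
    show (if (0 : ℕ) = 0 then (1 : ℂ) else 0) / (c + κ * τ 0) = _
    rw [if_pos rfl, Finset.prod_range_one, pow_zero, one_mul, one_div]
  | succ l ih =>
    show ((if l + 1 = 0 then (1 : ℂ) else 0) - κ * cf_nb κ c τ _ l) / (c + κ * τ (l + 1)) = _
    rw [ih (fun r hr => h r (by omega)), if_neg (by omega), Finset.prod_range_succ _ (l + 1), mul_inv,
      pow_succ]
    ring

/-- parameters -/
def cf_c (k : ℕ) (lam : ℂ) (τ : ℕ → ℂ) (n : ℕ) : ℂ :=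
  if n < 2 * k then 1 else 1 + lam * τ (n - 2 * k)

theorem cf_prod_c (k : ℕ) (κ lam : ℂ) (τ : ℕ → ℂ) (t : ℂ) (l : ℕ) :
    ∏ n ∈ range (2 * k + l), (cf_c k lam τ n + κ * t) =
      (1 + κ * t) ^ (2 * k) * ∏ r ∈ range l, (1 + κ * t + lam * τ r) := by
  rw [Finset.prod_range_add]
  congr 1
  · rw [← Finset.card_range (2 * k), ← Finset.prod_const, Finset.card_range]
    apply Finset.prod_congr rfl
    intro n hn
    rw [cf_c, if_pos (Finset.mem_range.1 hn)]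
  · apply Finset.prod_congr rfl
    intro r _
    rw [cf_c, if_neg (by omega), Nat.add_sub_cancel_left]
    ring

theorem cf_Phi (k : ℕ) (κ lam : ℂ) (τ : ℕ → ℂ) {m i j : ℕ} (hi : i < m) (hj : j < m)
    (h1 : ∀ l < m, 1 + κ * τ l ≠ 0) (h2 : ∀ l < m, ∀ r < m, 1 + κ * τ l + lam * τ r ≠ 0) :
    ((1 + κ * τ i) ^ (2 * k))⁻¹ * (1 + κ * τ i + lam * τ j)⁻¹ =
      ∑ l' ∈ range m, (∑ l ∈ range m, cf_T τ (τ i) l * (cf_B κ (cf_c k lam τ) τ (2 * k + l' + 1) l *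
        (-lam) ^ l')) * cf_T τ (τ j) l' := by
  obtain ⟨M, rfl⟩ : ∃ M, m = M + 1 := ⟨m - 1, by omega⟩
  have hc : ∀ n < 2 * k + (M + 1), ∀ l < M + 1, cf_c k lam τ n + κ * τ l ≠ 0 := by
    intro n hn l hl
    unfold cf_c
    split_ifs with hk
    · exact h1 l hl
    · have := h2 l hl (n - 2 * k) (by omega)
      intro hcon
      exact this (by rw [← hcon]; ring)
  have e1 : ∀ l' ∈ range (M + 1), (∑ l ∈ range (M + 1), cf_T τ (τ i) l *
      (cf_B κ (cf_c k lam τ) τ (2 * k + l' + 1) l * (-lam) ^ l')) =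
      ((1 + κ * τ i) ^ (2 * k))⁻¹ *
        cf_nb lam (1 + κ * τ i) τ (fun l => if l = 0 then 1 else 0) l' := by
    intro l' hl'
    rw [Finset.mem_range] at hl'
    have e2 := cf_B_spec κ (cf_c k lam τ) τ hi (2 * k + (l' + 1)) (fun n hn => hc n (by omega))
    rw [cf_prod_c] at e2
    rw [cf_nb_delta lam _ τ l' (fun r hr => h2 i hi r (by omega))]
    calc (∑ l ∈ range (M + 1), cf_T τ (τ i) l *
      (cf_B κ (cf_c k lam τ) τ (2 * k + l' + 1) l * (-lam) ^ l')) =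
        (∑ l ∈ range (M + 1), cf_B κ (cf_c k lam τ) τ (2 * k + (l' + 1)) l * cf_T τ (τ i) l) *
          (-lam) ^ l' := by
          rw [Finset.sum_mul]
          apply Finset.sum_congr rfl
          intro l _
          rw [← add_assoc]
          ring
      _ = _ := by
          rw [e2, mul_inv]
          ring
  rw [Finset.sum_congr rfl fun l' hl' => by rw [e1 l' hl']]
  have e3 := cf_nb_spec lam (1 + κ * τ i) τ (fun l => if l = 0 then 1 else 0) (τ j) M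
    (fun l hl => h2 i hi l (by omega))
  rw [cf_T_zero hj, mul_zero, add_zero, cf_sum_delta τ _ (by omega)] at e3
  have e4 : ∑ l' ∈ range (M + 1), cf_nb lam (1 + κ * τ i) τ (fun l => if l = 0 then 1 else 0) l' *
      cf_T τ (τ j) l' = (1 + κ * τ i + lam * τ j)⁻¹ := by
    have := h2 i hi j hj
    field_simp
    rw [mul_comm]
    exact e3
  rw [← e4, Finset.mul_sum]
  apply Finset.sum_congr rfl
  intro l' _
  ring

/-- limit values -/
theorem cf_B_lim (κ : ℂ) (n l : ℕ) : cf_B κ (fun _ => 1) (fun _ => 0) n l =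
    (-κ) ^ l * (Nat.choose (n + l - 1) l : ℂ) := by
  induction n generalizing l with
  | zero =>
    show (if l = 0 then (1 : ℂ) else 0) = _
    rcases Nat.eq_zero_or_pos l with h | h
    · subst h
      simp
    · rw [if_neg (by omega), Nat.choose_eq_zero_of_lt (by omega)]
      simp
  | succ n ih =>
    induction l with
    | zero =>
      show cf_B κ (fun _ => 1) (fun _ => 0) n 0 / (1 + κ * 0) = _
      rw [ih 0]
      simp
    | succ l ihl =>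
      show (cf_B κ (fun _ => 1) (fun _ => 0) n (l + 1) -
        κ * cf_B κ (fun _ => 1) (fun _ => 0) (n + 1) l) / (1 + κ * 0) = _
      rw [ih (l + 1), ihl]
      have e1 : n + 1 + (l + 1) - 1 = n + l + 1 := by omega
      have e2 : n + (l + 1) - 1 = n + l := by omega
      have e3 : n + 1 + l - 1 = n + l := by omega
      rw [e1, e2, e3, Nat.choose_succ_succ]
      push_cast
      ring

open Filter Topology

theorem cf_nb_tendsto {X : Type} {F : Filter X} (κ : ℂ) {c : X → ℂ} {τ a : X → ℕ → ℂ} {a0 : ℕ → ℂ}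
    (hc : Tendsto c F (𝓝 1)) (hτ : ∀ l, Tendsto (fun x => τ x l) F (𝓝 0))
    (ha : ∀ l, Tendsto (fun x => a x l) F (𝓝 (a0 l))) (l : ℕ) :
    Tendsto (fun x => cf_nb κ (c x) (τ x) (a x) l) F (𝓝 (cf_nb κ 1 (fun _ => 0) a0 l)) := by
  have hd : ∀ l, Tendsto (fun x => c x + κ * τ x l) F (𝓝 (1 + κ * 0)) := fun l =>
    hc.add ((hτ l).const_mul κ)
  have hne : (1 : ℂ) + κ * 0 ≠ 0 := by simp
  induction l with
  | zero => exact (ha 0).div (hd 0) hne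
  | succ l ih => exact ((ha (l + 1)).sub (ih.const_mul κ)).div (hd (l + 1)) hne

theorem cf_B_tendsto {X : Type} {F : Filter X} (κ : ℂ) {c τ : X → ℕ → ℂ}
    (hc : ∀ n, Tendsto (fun x => c x n) F (𝓝 1)) (hτ : ∀ l, Tendsto (fun x => τ x l) F (𝓝 0))
    (n l : ℕ) :
    Tendsto (fun x => cf_B κ (c x) (τ x) n l) F (𝓝 (cf_B κ (fun _ => 1) (fun _ => 0) n l)) := by
  induction n generalizing l with
  | zero => exact tendsto_const_nhds
  | succ n ih => exact cf_nb_tendsto κ (hc n) hτ ih l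

theorem cf_c_tendsto {X : Type} {F : Filter X} (k : ℕ) (lam : ℂ) {τ : X → ℕ → ℂ}
    (hτ : ∀ l, Tendsto (fun x => τ x l) F (𝓝 0)) (n : ℕ) :
    Tendsto (fun x => cf_c k lam (τ x) n) F (𝓝 1) := by
  unfold cf_c
  by_cases h : n < 2 * k
  · simp only [h, if_true]
    exact tendsto_const_nhds
  · simp only [h, if_false]
    have h1 := (hτ (n - 2 * k)).const_mul lam
    have h2 := h1.const_add (1 : ℂ)
    simpa using h2

/-! ### Complex representation -/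

/-- `e^{-iπ/6}/√3` -/
def cf_ka : ℂ := 1 / 2 - (Real.sqrt 3 : ℂ) / 6 * Complex.I
/-- `e^{iπ/6}/√3` -/
def cf_la : ℂ := 1 / 2 + (Real.sqrt 3 : ℂ) / 6 * Complex.I
/-- `√3/2` -/
def cf_w : ℂ := (Real.sqrt 3 : ℂ) / 2

theorem cf_sq3 : (Real.sqrt 3 : ℂ) ^ 2 = 3 := by
  rw [← Complex.ofReal_pow, Real.sq_sqrt (by norm_num)]
  norm_num

theorem cf_w_ne : cf_w ≠ 0 := by
  unfold cf_w
  intro h
  have h2 : (Real.sqrt 3 : ℂ) = 0 := by
    rw [div_eq_zero_iff] at h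
    rcases h with h | h
    · exact h
    · norm_num at h
  have := cf_sq3
  rw [h2] at this
  norm_num at this

/-- `e^{ix}` -/
def cf_E (x : ℝ) : ℂ := Complex.exp ((x : ℂ) * Complex.I)

theorem cf_E_ne (x : ℝ) : cf_E x ≠ 0 := Complex.exp_ne_zero _

theorem cf_E_neg (x : ℝ) : cf_E x * cf_E (-x) = 1 := by
  unfold cf_E
  rw [← Complex.exp_add, Complex.ofReal_neg, neg_mul, add_neg_cancel, Complex.exp_zero]

theorem cf_cos (x y : ℝ) : ((Real.cos (x - y) : ℝ) : ℂ) =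
    (cf_E x * cf_E (-y) + cf_E (-x) * cf_E y) / 2 := by
  rw [Complex.ofReal_cos, Complex.cos]
  unfold cf_E
  rw [← Complex.exp_add, ← Complex.exp_add]
  congr 3
  · push_cast; ring_nf
  · push_cast; ring_nf

theorem cf_sin (x y : ℝ) : ((Real.sin (x - y) : ℝ) : ℂ) =
    (cf_E (-x) * cf_E y - cf_E x * cf_E (-y)) * Complex.I / 2 := by
  rw [Complex.ofReal_sin, Complex.sin]
  unfold cf_E
  rw [← Complex.exp_add, ← Complex.exp_add]
  congr 4
  · push_cast; ring_nf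
  · push_cast; ring_nf

theorem cf_s (x y : ℝ) : ((s (x - y) : ℝ) : ℂ) * (cf_E x * cf_E y) =
    cf_w * (1 + cf_ka * (cf_E x ^ 2 - 1) + cf_la * (cf_E y ^ 2 - 1)) := by
  have h1 : s (x - y) = Real.sqrt 3 / 2 * Real.cos (x - y) + 1 / 2 * Real.sin (x - y) := by
    unfold s
    rw [Real.sin_add, Real.sin_pi_div_three, Real.cos_pi_div_three]
  rw [h1]
  push_cast
  have h2 := cf_cos x y
  have h3 := cf_sin x y
  push_cast at h2 h3
  rw [h2, h3]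
  have h4 := cf_E_neg x
  have h5 := cf_E_neg y
  have h6 := cf_sq3
  unfold cf_w cf_ka cf_la
  linear_combination (((Real.sqrt 3 : ℂ) / 4 + Complex.I / 4) * cf_E y ^ 2) * h4 +
    (((Real.sqrt 3 : ℂ) / 4 - Complex.I / 4) * cf_E x ^ 2) * h5 +
    (1 / 12 * Complex.I * (cf_E x ^ 2 - cf_E y ^ 2)) * h6

theorem cf_diff (x y : ℝ) : (cf_E y ^ 2 - cf_E x ^ 2) ^ 2 =
    -4 * ((Real.sin (x - y) : ℝ) : ℂ) ^ 2 * (cf_E x * cf_E y) ^ 2 := by
  have h3 := cf_sin x y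
  rw [h3]
  have h4 := cf_E_neg x
  have h5 := cf_E_neg y
  have h6 := Complex.I_sq
  have h7 : (cf_E (-x) * cf_E y - cf_E x * cf_E (-y)) * (cf_E x * cf_E y) =
      cf_E y ^ 2 - cf_E x ^ 2 := by
    linear_combination (cf_E y ^ 2) * h4 - (cf_E x ^ 2) * h5
  calc (cf_E y ^ 2 - cf_E x ^ 2) ^ 2 = ((cf_E (-x) * cf_E y - cf_E x * cf_E (-y)) *
        (cf_E x * cf_E y)) ^ 2 := by rw [h7]
    _ = -4 * ((cf_E (-x) * cf_E y - cf_E x * cf_E (-y)) * Complex.I / 2) ^ 2 *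
        (cf_E x * cf_E y) ^ 2 := by
        linear_combination (((cf_E (-x) * cf_E y - cf_E x * cf_E (-y)) *
        (cf_E x * cf_E y)) ^ 2) * h6

/-! ### The determinant -/

/-- the matrix in the Newton basis -/
def cf_M (k m : ℕ) (τ : ℕ → ℂ) : Matrix (Fin m) (Fin m) ℂ :=
  Matrix.of fun l l' => cf_B cf_ka (cf_c k cf_la τ) τ (2 * k + l' + 1) l * (-cf_la) ^ (l' : ℕ) +
    cf_B cf_la (cf_c k cf_ka τ) τ (2 * k + l' + 1) l * (-cf_ka) ^ (l' : ℕ)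

/-- the Newton matrix -/
def cf_TM (m : ℕ) (τ : ℕ → ℂ) : Matrix (Fin m) (Fin m) ℂ := Matrix.of fun i l => cf_T τ (τ i) l

theorem cf_det_TM (m : ℕ) (τ : ℕ → ℂ) :
    (cf_TM m τ).det = ∏ j ∈ range m, ∏ i ∈ range j, (τ j - τ i) := by
  rw [Matrix.det_of_isLowerTriangular]
  · rw [← Fin.prod_univ_eq_prod_range]
    rfl
  · intro i j hij
    exact cf_T_zero (by exact_mod_cast (OrderDual.toDual_lt_toDual.1 hij))

theorem cf_det_Phi (k m : ℕ) (τ : ℕ → ℂ)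
    (h1 : ∀ l < m, 1 + cf_ka * τ l ≠ 0) (h1' : ∀ l < m, 1 + cf_la * τ l ≠ 0)
    (h2 : ∀ l < m, ∀ r < m, 1 + cf_ka * τ l + cf_la * τ r ≠ 0) :
    (Matrix.of fun i j : Fin m =>
      ((1 + cf_ka * τ i) ^ (2 * k))⁻¹ * (1 + cf_ka * τ i + cf_la * τ j)⁻¹ +
      ((1 + cf_la * τ i) ^ (2 * k))⁻¹ * (1 + cf_la * τ i + cf_ka * τ j)⁻¹).det =
    (∏ j ∈ range m, ∏ i ∈ range j, (τ j - τ i)) ^ 2 * (cf_M k m τ).det := by
  have h2' : ∀ l < m, ∀ r < m, 1 + cf_la * τ l + cf_ka * τ r ≠ 0 := by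
    intro l hl r hr hcon
    exact h2 r hr l hl (by rw [← hcon]; ring)
  have key : (Matrix.of fun i j : Fin m =>
      ((1 + cf_ka * τ i) ^ (2 * k))⁻¹ * (1 + cf_ka * τ i + cf_la * τ j)⁻¹ +
      ((1 + cf_la * τ i) ^ (2 * k))⁻¹ * (1 + cf_la * τ i + cf_ka * τ j)⁻¹) =
      cf_TM m τ * cf_M k m τ * (cf_TM m τ).transpose := by
    ext i j
    rw [Matrix.mul_apply]
    simp only [Matrix.mul_apply, Matrix.of_apply, Matrix.transpose_apply]
    rw [cf_Phi k cf_ka cf_la τ i.2 j.2 h1 h2, cf_Phi k cf_la cf_ka τ i.2 j.2 h1' h2',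
      ← Finset.sum_add_distrib, Finset.sum_range]
    apply Finset.sum_congr rfl
    intro l' _
    rw [Finset.sum_range, Finset.sum_range, ← add_mul, ← Finset.sum_add_distrib]
    unfold cf_TM cf_M
    simp only [Matrix.of_apply]
    congr 1
    apply Finset.sum_congr rfl
    intro l _
    ring
  rw [key, Matrix.det_mul, Matrix.det_mul, Matrix.det_transpose, cf_det_TM]
  ring

/-- row factor -/
def cf_r (k : ℕ) (x : ℝ) : ℂ := cf_w ^ (2 * k) / cf_w * (cf_E x / cf_E x ^ (2 * k)) *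
  ((1 + cf_ka * (cf_E x ^ 2 - 1)) ^ (2 * k) * (1 + cf_la * (cf_E x ^ 2 - 1)) ^ (2 * k))

theorem cf_s' (x y : ℝ) : ((s (x - y) : ℝ) : ℂ) =
    cf_w * (1 + cf_ka * (cf_E x ^ 2 - 1) + cf_la * (cf_E y ^ 2 - 1)) / (cf_E x * cf_E y) := by
  rw [eq_div_iff (mul_ne_zero (cf_E_ne x) (cf_E_ne y)), cf_s]

theorem cf_E_zero : cf_E 0 = 1 := by
  unfold cf_E
  simp

theorem cf_entry (k : ℕ) (x y : ℝ) (h1 : 1 + cf_ka * (cf_E x ^ 2 - 1) ≠ 0)
    (h2 : 1 + cf_la * (cf_E x ^ 2 - 1) ≠ 0)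
    (h3 : 1 + cf_ka * (cf_E x ^ 2 - 1) + cf_la * (cf_E y ^ 2 - 1) ≠ 0)
    (h4 : 1 + cf_la * (cf_E x ^ 2 - 1) + cf_ka * (cf_E y ^ 2 - 1) ≠ 0) :
    ((Fp (2 * k) (fun _ => 0) x / s (x - y) + Fm (2 * k) (fun _ => 0) x / s (y - x) : ℝ) : ℂ) =
    cf_r k x * (cf_E y * (((1 + cf_ka * (cf_E x ^ 2 - 1)) ^ (2 * k))⁻¹ *
      (1 + cf_ka * (cf_E x ^ 2 - 1) + cf_la * (cf_E y ^ 2 - 1))⁻¹ +
      ((1 + cf_la * (cf_E x ^ 2 - 1)) ^ (2 * k))⁻¹ *
      (1 + cf_la * (cf_E x ^ 2 - 1) + cf_ka * (cf_E y ^ 2 - 1))⁻¹)) := by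
  have hF : Fp (2 * k) (fun _ => 0) x = s (0 - x) ^ (2 * k) := by
    unfold Fp
    rw [Finset.prod_const, Finset.card_range]
  have hF' : Fm (2 * k) (fun _ => 0) x = s (x - 0) ^ (2 * k) := by
    unfold Fm
    rw [Finset.prod_const, Finset.card_range]
  rw [hF, hF']
  push_cast
  rw [cf_s' 0 x, cf_s' x 0, cf_s' x y, cf_s' y x, cf_E_zero]
  have hx := cf_E_ne x
  have hy := cf_E_ne y
  have hw := cf_w_ne
  unfold cf_r
  have h4' : 1 + cf_ka * (cf_E y ^ 2 - 1) + cf_la * (cf_E x ^ 2 - 1) =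
    1 + cf_la * (cf_E x ^ 2 - 1) + cf_ka * (cf_E y ^ 2 - 1) := by ring
  rw [h4']
  have z1 : (1 : ℂ) + cf_ka * ((1 : ℂ) ^ 2 - 1) + cf_la * (cf_E x ^ 2 - 1) =
    1 + cf_la * (cf_E x ^ 2 - 1) := by ring
  have z2 : (1 : ℂ) + cf_ka * (cf_E x ^ 2 - 1) + cf_la * ((1 : ℂ) ^ 2 - 1) =
    1 + cf_ka * (cf_E x ^ 2 - 1) := by ring
  rw [z1, z2]
  generalize 1 + cf_la * (cf_E x ^ 2 - 1) + cf_ka * (cf_E y ^ 2 - 1) = D at h4 ⊢
  generalize 1 + cf_ka * (cf_E x ^ 2 - 1) + cf_la * (cf_E y ^ 2 - 1) = C at h3 ⊢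
  generalize 1 + cf_ka * (cf_E x ^ 2 - 1) = A at h1 ⊢
  generalize 1 + cf_la * (cf_E x ^ 2 - 1) = B at h2 ⊢
  generalize cf_E x = e at hx ⊢
  generalize cf_E y = f at hy ⊢
  generalize cf_w = w at hw ⊢
  simp only [div_pow, mul_pow, one_mul, mul_one]
  field_simp

theorem cf_det_GM (k m : ℕ) (b : ℕ → ℝ)
    (h1 : ∀ l < m, 1 + cf_ka * (cf_E (b l) ^ 2 - 1) ≠ 0)
    (h1' : ∀ l < m, 1 + cf_la * (cf_E (b l) ^ 2 - 1) ≠ 0)
    (h2 : ∀ l < m, ∀ r < m, 1 + cf_ka * (cf_E (b l) ^ 2 - 1) + cf_la * (cf_E (b r) ^ 2 - 1) ≠ 0) :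
    (((GM (2 * k) m (fun _ => 0) b).det : ℝ) : ℂ) =
      (∏ i ∈ range m, cf_r k (b i)) * (∏ i ∈ range m, cf_E (b i)) *
      ((∏ j ∈ range m, ∏ i ∈ range j, (cf_E (b j) ^ 2 - cf_E (b i) ^ 2)) ^ 2 *
        (cf_M k m (fun i => cf_E (b i) ^ 2 - 1)).det) := by
  have e1 : (((GM (2 * k) m (fun _ => 0) b).det : ℝ) : ℂ) =
      (Matrix.of fun i j : Fin m => cf_r k (b i) * (Matrix.of fun i j : Fin m => cf_E (b j) *
      (Matrix.of fun i j : Fin m =>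
      ((1 + cf_ka * (cf_E (b i) ^ 2 - 1)) ^ (2 * k))⁻¹ *
        (1 + cf_ka * (cf_E (b i) ^ 2 - 1) + cf_la * (cf_E (b j) ^ 2 - 1))⁻¹ +
      ((1 + cf_la * (cf_E (b i) ^ 2 - 1)) ^ (2 * k))⁻¹ *
        (1 + cf_la * (cf_E (b i) ^ 2 - 1) + cf_ka * (cf_E (b j) ^ 2 - 1))⁻¹) i j) i j).det := by
    have := RingHom.map_det Complex.ofRealHom (GM (2 * k) m (fun _ => 0) b)
    rw [Complex.ofRealHom_eq_coe] at this
    rw [this]
    congr 1
    ext i j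
    have h3 := cf_entry k (b i) (b j) (h1 i i.2) (h1' i i.2) (h2 i i.2 j j.2)
      (by
        have := h2 j j.2 i i.2
        intro hcon
        exact this (by rw [← hcon]; ring))
    simp only [Matrix.of_apply]
    rw [← h3]
    rfl
  have p1 : ∏ i : Fin m, cf_r k (b i) = ∏ i ∈ range m, cf_r k (b i) :=
    Fin.prod_univ_eq_prod_range (fun i => cf_r k (b i)) m
  have p2 : ∏ i : Fin m, cf_E (b i) = ∏ i ∈ range m, cf_E (b i) :=
    Fin.prod_univ_eq_prod_range (fun i => cf_E (b i)) m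
  have p3 : ∏ j ∈ range m, ∏ i ∈ range j, ((cf_E (b j) ^ 2 - 1) - (cf_E (b i) ^ 2 - 1)) =
      ∏ j ∈ range m, ∏ i ∈ range j, (cf_E (b j) ^ 2 - cf_E (b i) ^ 2) := by
    apply Finset.prod_congr rfl
    intro j _
    apply Finset.prod_congr rfl
    intro i _
    ring
  rw [e1, Matrix.det_mul_column, Matrix.det_mul_row,
    cf_det_Phi k m (fun i => cf_E (b i) ^ 2 - 1) h1 h1' h2, p1, p2, p3, ← mul_assoc]

/-- exact formula -/
theorem cf_G (k m : ℕ) (b : ℕ → ℝ)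
    (h0 : ∀ j < m, ∀ i < j, Real.sin (b i - b j) ≠ 0)
    (h1 : ∀ l < m, 1 + cf_ka * (cf_E (b l) ^ 2 - 1) ≠ 0)
    (h1' : ∀ l < m, 1 + cf_la * (cf_E (b l) ^ 2 - 1) ≠ 0)
    (h2 : ∀ l < m, ∀ r < m, 1 + cf_ka * (cf_E (b l) ^ 2 - 1) + cf_la * (cf_E (b r) ^ 2 - 1) ≠ 0) :
    ((G (2 * k) m (fun _ => 0) b : ℝ) : ℂ) =
      (-1) ^ (m * (m - 1) / 2) * cf_w ^ m *
      (∏ j ∈ range m, ∏ i ∈ range j, ((((s (b i - b j) : ℝ) : ℂ) * ((s (b j - b i) : ℝ) : ℂ)) ^ 2 *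
        (-4) * (cf_E (b i) * cf_E (b j)) ^ 2)) *
      ((∏ i ∈ range m, cf_r k (b i)) * (∏ i ∈ range m, cf_E (b i)) *
        (cf_M k m (fun i => cf_E (b i) ^ 2 - 1)).det) := by
  unfold G Gpre
  push_cast
  rw [cf_det_GM k m b h1 h1' h2]
  have e : (∏ j ∈ range m, ∏ i ∈ range j, ((((s (b i - b j) : ℝ) : ℂ) * ((s (b j - b i) : ℝ) : ℂ)) ^ 2 *
        (-4) * (cf_E (b i) * cf_E (b j)) ^ 2)) =
      (∏ j ∈ range m, ∏ i ∈ range j, (((s (b i - b j) : ℝ) : ℂ) * ((s (b j - b i) : ℝ) : ℂ) /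
        Complex.sin ((b i : ℂ) - (b j : ℂ))) ^ 2) *
      (∏ j ∈ range m, ∏ i ∈ range j, (cf_E (b j) ^ 2 - cf_E (b i) ^ 2)) ^ 2 := by
    rw [← Finset.prod_pow, ← Finset.prod_mul_distrib]
    apply Finset.prod_congr rfl
    intro j hj
    rw [← Finset.prod_pow, ← Finset.prod_mul_distrib]
    apply Finset.prod_congr rfl
    intro i hi
    rw [Finset.mem_range] at hi hj
    rw [cf_diff (b i) (b j)]
    have h3 := h0 j hj i hi
    have h4 : Complex.sin ((b i : ℂ) - (b j : ℂ)) ≠ 0 := by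
      have : ((Real.sin (b i - b j) : ℝ) : ℂ) ≠ 0 := by exact_mod_cast h3
      rwa [Complex.ofReal_sin, Complex.ofReal_sub] at this
    rw [Complex.ofReal_sin, Complex.ofReal_sub]
    field_simp
  rw [e]
  unfold cf_w
  ring

/-! ### The limit -/

theorem cf_w_sq : cf_w ^ 2 = 3 / 4 := by
  have := cf_sq3
  unfold cf_w
  linear_combination (1 / 4 : ℂ) * this

theorem cf_E_tendsto (i : ℕ) :
    Tendsto (fun ε : ℝ => cf_E (ε * ((i : ℝ) + 1))) (𝓝[>] 0) (𝓝 1) := by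
  have h : Continuous fun ε : ℝ => cf_E (ε * ((i : ℝ) + 1)) := by
    unfold cf_E
    fun_prop
  have h2 := h.tendsto 0
  rw [zero_mul, cf_E_zero] at h2
  exact h2.mono_left nhdsWithin_le_nhds

theorem cf_s_tendsto (i j : ℕ) :
    Tendsto (fun ε : ℝ => ((s (ε * ((i : ℝ) + 1) - ε * ((j : ℝ) + 1)) : ℝ) : ℂ)) (𝓝[>] 0)
      (𝓝 cf_w) := by
  have h : Continuous fun ε : ℝ => ((s (ε * ((i : ℝ) + 1) - ε * ((j : ℝ) + 1)) : ℝ) : ℂ) := by
    unfold s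
    fun_prop
  have h2 := h.tendsto 0
  have e : ((s (0 * ((i : ℝ) + 1) - 0 * ((j : ℝ) + 1)) : ℝ) : ℂ) = cf_w := by
    unfold s cf_w
    rw [zero_mul, zero_mul, sub_zero, add_zero, Real.sin_pi_div_three]
    push_cast
    rfl
  rw [e] at h2
  exact h2.mono_left nhdsWithin_le_nhds

theorem cf_t_tendsto (i : ℕ) :
    Tendsto (fun ε : ℝ => cf_E (ε * ((i : ℝ) + 1)) ^ 2 - 1) (𝓝[>] 0) (𝓝 0) := by
  have := ((cf_E_tendsto i).pow 2).sub_const 1
  simpa using this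

theorem cf_r_tendsto (k i : ℕ) :
    Tendsto (fun ε : ℝ => cf_r k (ε * ((i : ℝ) + 1))) (𝓝[>] 0) (𝓝 (cf_w ^ (2 * k) / cf_w)) := by
  have h1 := cf_E_tendsto i
  have h2 := cf_t_tendsto i
  have h3 : Tendsto (fun ε : ℝ => cf_E (ε * ((i : ℝ) + 1)) / cf_E (ε * ((i : ℝ) + 1)) ^ (2 * k))
      (𝓝[>] 0) (𝓝 (1 / 1 ^ (2 * k))) := h1.div (h1.pow (2 * k)) (by simp)
  have h4 : Tendsto (fun ε : ℝ => (1 + cf_ka * (cf_E (ε * ((i : ℝ) + 1)) ^ 2 - 1)) ^ (2 * k) *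
      (1 + cf_la * (cf_E (ε * ((i : ℝ) + 1)) ^ 2 - 1)) ^ (2 * k)) (𝓝[>] 0)
      (𝓝 ((1 + cf_ka * 0) ^ (2 * k) * (1 + cf_la * 0) ^ (2 * k))) :=
    (((h2.const_mul cf_ka).const_add 1).pow (2 * k)).mul
      (((h2.const_mul cf_la).const_add 1).pow (2 * k))
  have h5 := (h3.const_mul (cf_w ^ (2 * k) / cf_w)).mul h4
  simp only [mul_zero, add_zero, one_pow, mul_one, div_one] at h5
  exact h5

/-- limit matrix -/
def cf_M0 (k m : ℕ) : Matrix (Fin m) (Fin m) ℂ :=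
  Matrix.of fun l l' => (-cf_ka) ^ (l : ℕ) * (Nat.choose (2 * k + l + l') l : ℂ) * (-cf_la) ^ (l' : ℕ) +
    (-cf_la) ^ (l : ℕ) * (Nat.choose (2 * k + l + l') l : ℂ) * (-cf_ka) ^ (l' : ℕ)

theorem cf_M_tendsto (k m : ℕ) :
    Tendsto (fun ε : ℝ => (cf_M k m (fun i => cf_E (ε * ((i : ℝ) + 1)) ^ 2 - 1)).det) (𝓝[>] 0)
      (𝓝 (cf_M0 k m).det) := by
  have h : Tendsto (fun ε : ℝ => cf_M k m (fun i => cf_E (ε * ((i : ℝ) + 1)) ^ 2 - 1)) (𝓝[>] 0)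
      (𝓝 (cf_M0 k m)) := by
    refine tendsto_pi_nhds.2 fun l => tendsto_pi_nhds.2 fun l' => ?_
    have hτ : ∀ i : ℕ, Tendsto (fun ε : ℝ => (fun i : ℕ => cf_E (ε * ((i : ℝ) + 1)) ^ 2 - 1) i)
      (𝓝[>] 0) (𝓝 0) := cf_t_tendsto
    have g1 := (cf_B_tendsto cf_ka (cf_c_tendsto k cf_la hτ) hτ (2 * k + l' + 1) l).mul_const
      ((-cf_la) ^ (l' : ℕ))
    have g2 := (cf_B_tendsto cf_la (cf_c_tendsto k cf_ka hτ) hτ (2 * k + l' + 1) l).mul_const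
      ((-cf_ka) ^ (l' : ℕ))
    have g3 := g1.add g2
    rw [cf_B_lim, cf_B_lim, show 2 * k + (l' : ℕ) + 1 + (l : ℕ) - 1 = 2 * k + l + l' by omega] at g3
    exact g3
  exact ((continuous_id.matrix_det).tendsto (cf_M0 k m)).comp h

/-- `e^{-iπ/6}` -/
def cf_u : ℂ := cf_E (-(Real.pi / 6))
def cf_v : ℂ := cf_E (Real.pi / 6)

theorem cf_E_pow (x : ℝ) (n : ℕ) : cf_E x ^ n = cf_E (n * x) := by
  unfold cf_E
  rw [← Complex.exp_nat_mul]
  congr 1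
  push_cast
  ring

theorem cf_v_val : cf_v = cf_w + Complex.I / 2 := by
  unfold cf_v cf_E cf_w
  rw [Complex.exp_mul_I, ← Complex.ofReal_cos, ← Complex.ofReal_sin, Real.cos_pi_div_six,
    Real.sin_pi_div_six]
  push_cast
  ring

theorem cf_u_val : cf_u = cf_w - Complex.I / 2 := by
  unfold cf_u cf_E cf_w
  rw [Complex.exp_mul_I, ← Complex.ofReal_cos, ← Complex.ofReal_sin, Real.cos_neg, Real.sin_neg,
    Real.cos_pi_div_six, Real.sin_pi_div_six]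
  push_cast
  ring

/-- `1/√3` -/
def cf_q : ℂ := (Real.sqrt 3 : ℂ) / 3

theorem cf_ka_val : cf_ka = cf_q * cf_u := by
  have := cf_sq3
  rw [cf_u_val]
  unfold cf_ka cf_q cf_w
  linear_combination (-1 / 6 : ℂ) * this

theorem cf_la_val : cf_la = cf_q * cf_v := by
  have := cf_sq3
  rw [cf_v_val]
  unfold cf_la cf_q cf_w
  linear_combination (-1 / 6 : ℂ) * this

theorem cf_M0_entry (k : ℕ) (l l' : ℕ) :
    (-cf_ka) ^ l * (Nat.choose (2 * k + l + l') l : ℂ) * (-cf_la) ^ l' +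
    (-cf_la) ^ l * (Nat.choose (2 * k + l + l') l : ℂ) * (-cf_ka) ^ l' =
    (-cf_q) ^ l * ((-cf_q) ^ l' *
      ((((Nat.choose (2 * k + l + l') l : ℝ) * cc ((l : ℤ) - (l' : ℤ) + 0) : ℝ)) : ℂ)) := by
  have h1 : ((cc ((l : ℤ) - (l' : ℤ) + 0) : ℝ) : ℂ) = cf_u ^ l * cf_v ^ l' + cf_v ^ l * cf_u ^ l' := by
    have h2 := cf_cos (l * (Real.pi / 6)) (l' * (Real.pi / 6))
    have e1 : cf_u ^ l = cf_E (-(l * (Real.pi / 6))) := by
      unfold cf_u
      rw [cf_E_pow]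
      congr 1
      ring
    have e2 : cf_u ^ l' = cf_E (-(l' * (Real.pi / 6))) := by
      unfold cf_u
      rw [cf_E_pow]
      congr 1
      ring
    have e3 : cf_v ^ l = cf_E (l * (Real.pi / 6)) := by
      unfold cf_v
      rw [cf_E_pow]
    have e4 : cf_v ^ l' = cf_E (l' * (Real.pi / 6)) := by
      unfold cf_v
      rw [cf_E_pow]
    rw [← e1, ← e2, ← e3, ← e4] at h2
    have e5 : cc ((l : ℤ) - (l' : ℤ) + 0) =
        2 * Real.cos ((l : ℝ) * (Real.pi / 6) - (l' : ℝ) * (Real.pi / 6)) := by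
      unfold cc
      congr 2
      push_cast
      ring
    rw [e5]
    push_cast at h2 ⊢
    rw [h2]
    ring
  rw [Complex.ofReal_mul, h1, cf_ka_val, cf_la_val, neg_mul_eq_neg_mul, neg_mul_eq_neg_mul,
    mul_pow, mul_pow, mul_pow, mul_pow]
  push_cast
  ring

theorem cf_det_M0 (k m : ℕ) :
    (cf_M0 k m).det = (1 / 3) ^ (∑ i ∈ range m, i) * ((DD m (2 * k) 0 : ℝ) : ℂ) := by
  have e1 : (cf_M0 k m).det =
      (Matrix.of fun i j : Fin m => (-cf_q) ^ (i : ℕ) * (Matrix.of fun i j : Fin m =>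
        (-cf_q) ^ (j : ℕ) * ((Matrix.of fun i j : Fin m =>
          (Nat.choose (2 * k + i + j) i : ℝ) * cc ((i : ℤ) - (j : ℤ) + 0)).map
            (Complex.ofRealHom : ℝ →+* ℂ)) i j) i j).det := by
    congr 1
    ext l l'
    simp only [cf_M0, Matrix.of_apply, Matrix.map_apply]
    exact cf_M0_entry k l l'
  have p1 : ∏ i : Fin m, (-cf_q) ^ (i : ℕ) = (-cf_q) ^ (∑ i ∈ range m, i) := by
    rw [← Finset.prod_pow_eq_pow_sum]
    exact Fin.prod_univ_eq_prod_range (fun i => (-cf_q) ^ i) m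
  have h3 := RingHom.map_det (Complex.ofRealHom : ℝ →+* ℂ) (Matrix.of fun i j : Fin m =>
          (Nat.choose (2 * k + i + j) i : ℝ) * cc ((i : ℤ) - (j : ℤ) + 0))
  rw [e1, Matrix.det_mul_column, Matrix.det_mul_row, p1]
  have h4 : ((Matrix.of fun i j : Fin m =>
          (Nat.choose (2 * k + i + j) i : ℝ) * cc ((i : ℤ) - (j : ℤ) + 0)).map
            (Complex.ofRealHom : ℝ →+* ℂ)).det = ((DD m (2 * k) 0 : ℝ) : ℂ) := by
    rw [← RingHom.mapMatrix_apply, ← h3]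
    rfl
  have h5 : (-cf_q) * (-cf_q) = 1 / 3 := by
    have := cf_sq3
    unfold cf_q
    linear_combination (1 / 9 : ℂ) * this
  rw [h4, ← mul_assoc, ← mul_pow, h5]

theorem cf_prod_const (m : ℕ) (c : ℂ) : ∏ j ∈ range m, ∏ _i ∈ range j, c =
    c ^ (∑ i ∈ range m, i) := by
  simp only [Finset.prod_const, Finset.card_range]
  rw [Finset.prod_pow_eq_pow_sum]

theorem G_tendsto (k m : ℕ) :
    Filter.Tendsto (fun ε : ℝ => G (2 * k) m (fun _ => 0) (fun i => ε * ((i : ℝ) + 1)))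
      (nhdsWithin 0 (Set.Ioi 0))
      (nhds ((Real.sqrt 3 / 2) ^ (2 * k * m + m * (m - 1)) * DD m (2 * k) 0)) := by
  have hlim : Tendsto (fun ε : ℝ =>
      (-1) ^ (m * (m - 1) / 2) * cf_w ^ m *
      (∏ j ∈ range m, ∏ i ∈ range j,
        ((((s (ε * ((i : ℝ) + 1) - ε * ((j : ℝ) + 1)) : ℝ) : ℂ) *
          ((s (ε * ((j : ℝ) + 1) - ε * ((i : ℝ) + 1)) : ℝ) : ℂ)) ^ 2 *
        (-4) * (cf_E (ε * ((i : ℝ) + 1)) * cf_E (ε * ((j : ℝ) + 1))) ^ 2)) *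
      ((∏ i ∈ range m, cf_r k (ε * ((i : ℝ) + 1))) * (∏ i ∈ range m, cf_E (ε * ((i : ℝ) + 1))) *
        (cf_M k m (fun i => cf_E (ε * ((i : ℝ) + 1)) ^ 2 - 1)).det)) (𝓝[>] 0)
      (𝓝 ((-1) ^ (m * (m - 1) / 2) * cf_w ^ m *
      (∏ j ∈ range m, ∏ _i ∈ range j, ((cf_w * cf_w) ^ 2 * (-4) * (1 * 1) ^ 2)) *
      ((∏ _i ∈ range m, cf_w ^ (2 * k) / cf_w) * (∏ _i ∈ range m, 1) * (cf_M0 k m).det))) := by
    apply Tendsto.mul
    · apply Tendsto.const_mul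
      apply tendsto_finsetProd
      intro j _
      apply tendsto_finsetProd
      intro i _
      exact ((((cf_s_tendsto i j).mul (cf_s_tendsto j i)).pow 2).mul_const (-4)).mul
        (((cf_E_tendsto i).mul (cf_E_tendsto j)).pow 2)
    · apply Tendsto.mul
      · apply Tendsto.mul
        · apply tendsto_finsetProd
          intro i _
          exact cf_r_tendsto k i
        · apply tendsto_finsetProd
          intro i _
          exact cf_E_tendsto i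
      · exact cf_M_tendsto k m
  have hval : (-1) ^ (m * (m - 1) / 2) * cf_w ^ m *
      (∏ j ∈ range m, ∏ _i ∈ range j, ((cf_w * cf_w) ^ 2 * (-4) * (1 * 1) ^ 2)) *
      ((∏ _i ∈ range m, cf_w ^ (2 * k) / cf_w) * (∏ _i ∈ range m, 1) * (cf_M0 k m).det) =
      (((Real.sqrt 3 / 2) ^ (2 * k * m + m * (m - 1)) * DD m (2 * k) 0 : ℝ) : ℂ) := by
    have hN : ∑ i ∈ range m, i = m * (m - 1) / 2 := Finset.sum_range_id m
    have hN2 : m * (m - 1) = 2 * (∑ i ∈ range m, i) := by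
      have := Finset.sum_range_id_mul_two m
      rw [← this]
      ring
    rw [cf_prod_const, cf_det_M0, ← hN, Finset.prod_const, Finset.card_range, Finset.prod_const_one,
      hN2]
    generalize ∑ i ∈ range m, i = N
    have hw := cf_w_ne
    have hw2 := cf_w_sq
    have e1 : (cf_w * cf_w) ^ 2 * (-4) * (1 * 1) ^ 2 = (-9 / 4 : ℂ) := by
      rw [← pow_two, hw2]
      norm_num
    push_cast
    have e2 : ((Real.sqrt 3 : ℂ) / 2) = cf_w := rfl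
    have e3 : (3 / 4 : ℂ) ^ N = (-1) ^ N * (-9 / 4) ^ N * (1 / 3) ^ N := by
      rw [← mul_pow, ← mul_pow]
      norm_num
    have e4 : cf_w ^ m * (cf_w ^ (2 * k) / cf_w) ^ m = cf_w ^ (2 * k * m) := by
      rw [← mul_pow, mul_div_cancel₀ _ hw, ← pow_mul]
    rw [e1, e2, pow_add, pow_mul cf_w 2 N, hw2, e3, ← e4]
    ring
  rw [hval] at hlim
  have hev : ∀ᶠ ε : ℝ in 𝓝[>] 0, ((G (2 * k) m (fun _ => 0) (fun i => ε * ((i : ℝ) + 1)) : ℝ) : ℂ) =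
      (-1) ^ (m * (m - 1) / 2) * cf_w ^ m *
      (∏ j ∈ range m, ∏ i ∈ range j,
        ((((s (ε * ((i : ℝ) + 1) - ε * ((j : ℝ) + 1)) : ℝ) : ℂ) *
          ((s (ε * ((j : ℝ) + 1) - ε * ((i : ℝ) + 1)) : ℝ) : ℂ)) ^ 2 *
        (-4) * (cf_E (ε * ((i : ℝ) + 1)) * cf_E (ε * ((j : ℝ) + 1))) ^ 2)) *
      ((∏ i ∈ range m, cf_r k (ε * ((i : ℝ) + 1))) * (∏ i ∈ range m, cf_E (ε * ((i : ℝ) + 1))) *
        (cf_M k m (fun i => cf_E (ε * ((i : ℝ) + 1)) ^ 2 - 1)).det) := by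
    have a1 : ∀ᶠ ε : ℝ in 𝓝[>] 0, ∀ l ∈ range m,
        1 + cf_ka * (cf_E (ε * ((l : ℝ) + 1)) ^ 2 - 1) ≠ 0 := by
      rw [Filter.eventually_all_finset]
      intro l _
      have := ((cf_t_tendsto l).const_mul cf_ka).const_add 1
      rw [mul_zero, add_zero] at this
      exact this.eventually_ne one_ne_zero
    have a2 : ∀ᶠ ε : ℝ in 𝓝[>] 0, ∀ l ∈ range m,
        1 + cf_la * (cf_E (ε * ((l : ℝ) + 1)) ^ 2 - 1) ≠ 0 := by
      rw [Filter.eventually_all_finset]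
      intro l _
      have := ((cf_t_tendsto l).const_mul cf_la).const_add 1
      rw [mul_zero, add_zero] at this
      exact this.eventually_ne one_ne_zero
    have a3 : ∀ᶠ ε : ℝ in 𝓝[>] 0, ∀ l ∈ range m, ∀ r ∈ range m,
        1 + cf_ka * (cf_E (ε * ((l : ℝ) + 1)) ^ 2 - 1) +
          cf_la * (cf_E (ε * ((r : ℝ) + 1)) ^ 2 - 1) ≠ 0 := by
      rw [Filter.eventually_all_finset]
      intro l _
      rw [Filter.eventually_all_finset]
      intro r _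
      have := (((cf_t_tendsto l).const_mul cf_ka).const_add 1).add ((cf_t_tendsto r).const_mul cf_la)
      rw [mul_zero, mul_zero, add_zero, add_zero] at this
      exact this.eventually_ne one_ne_zero
    have a4 : ∀ᶠ ε : ℝ in 𝓝[>] 0, ε < 3 / ((m : ℝ) + 1) := by
      have : (0 : ℝ) < 3 / ((m : ℝ) + 1) := by positivity
      exact (Iio_mem_nhds this) |> fun h => mem_nhdsWithin_of_mem_nhds h
    filter_upwards [a1, a2, a3, a4, self_mem_nhdsWithin] with ε b1 b2 b3 b4 b5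
    rw [Set.mem_Ioi] at b5
    apply cf_G k m (fun i => ε * ((i : ℝ) + 1))
    · intro j hj i hi
      show Real.sin (ε * ((i : ℝ) + 1) - ε * ((j : ℝ) + 1)) ≠ 0
      have c1 : (i : ℝ) < j := by exact_mod_cast hi
      have c2 : (j : ℝ) < m := by exact_mod_cast hj
      have c3 : (0 : ℝ) ≤ i := by positivity
      have c4 : ε * ((m : ℝ) + 1) < 3 := by
        rwa [lt_div_iff₀ (by positivity)] at b4
      have c5 : 0 < ε * ((j : ℝ) - i) := mul_pos b5 (by linarith)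
      have c6 : ε * ((j : ℝ) - i) < 3 := by nlinarith
      have c7 := Real.pi_gt_three
      have c8 : 0 < Real.sin (ε * ((j : ℝ) - i)) := Real.sin_pos_of_pos_of_lt_pi c5 (by linarith)
      have c9 : ε * ((i : ℝ) + 1) - ε * ((j : ℝ) + 1) = -(ε * ((j : ℝ) - i)) := by ring
      rw [c9, Real.sin_neg]
      linarith
    · intro l hl
      exact b1 l (Finset.mem_range.2 hl)
    · intro l hl
      exact b2 l (Finset.mem_range.2 hl)
    · intro l hl r hr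
      exact b3 l (Finset.mem_range.2 hl) r (Finset.mem_range.2 hr)
  have hfin := hlim.congr' (hev.mono fun ε h => h.symm)
  have := (Complex.continuous_re.tendsto _).comp hfin
  simpa only [Function.comp_def, Complex.ofReal_re] using this

end

end EA
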