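import Pool.Agent.Helper70.EA.Defs

/-! MODULE DJ: Desnanot-Jacobi identity and the relations it gives for `DD`.

`DD m μ δ = ∏_{i<m} 1/(i! (μ+i)!) * det [ (μ+i+j)! cc(i-j+δ) ]`; the minors of the matrix `[(μ+i+j)! cc(i-j+δ)]` of size
`m+2` without first/last row/column are of the same form: without last row and last column `(m+1, μ, δ)`; without first
row and first column `(m+1, μ+2, δ)`; without first row and last column `(m+1, μ+1, δ+1)`; without last row and first
column `(m+1, μ+1, δ-1)`; inner `(m, μ+2, δ)`. -/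
namespace EA
open IP Finset Real

section DJ
open Matrix

theorem dj_block_aux {R : Type*} [CommRing R] {n : Type*} [Fintype n] [DecidableEq n]
    (M : Matrix (Fin 2 ⊕ n) (Fin 2 ⊕ n) R) :
    M.det * (adjugate M).toBlocks₁₁.det = M.det * (M.det * M.toBlocks₂₂.det) := by
  set A := M.toBlocks₁₁
  set B := M.toBlocks₁₂
  set C := M.toBlocks₂₁
  set D := M.toBlocks₂₂
  set P := (adjugate M).toBlocks₁₁
  set S := (adjugate M).toBlocks₂₁
  have hM : M = fromBlocks A B C D := (fromBlocks_toBlocks M).symm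
  have hadj : adjugate M = fromBlocks P (adjugate M).toBlocks₁₂ S (adjugate M).toBlocks₂₂ :=
    (fromBlocks_toBlocks _).symm
  have h1 : M * adjugate M = M.det • (1 : Matrix (Fin 2 ⊕ n) (Fin 2 ⊕ n) R) := mul_adjugate M
  rw [hadj] at h1
  nth_rewrite 1 [hM] at h1
  rw [fromBlocks_multiply, ← fromBlocks_one, fromBlocks_smul, fromBlocks_inj] at h1
  obtain ⟨h11, -, h21, -⟩ := h1
  have h2 : M * fromBlocks P 0 S 1 = fromBlocks (M.det • (1 : Matrix (Fin 2) (Fin 2) R)) B 0 D := by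
    nth_rewrite 1 [hM]
    rw [fromBlocks_multiply, h11, h21]
    simp
  have h3 := congrArg det h2
  rw [det_mul, det_fromBlocks_zero₁₂, det_fromBlocks_zero₂₁, det_one, mul_one, det_smul, det_one,
    mul_one, Fintype.card_fin] at h3
  rw [h3]
  ring

/-- Jacobi's complementary minor identity, `2 × 2` minors of the adjugate -/
theorem dj_block {R : Type*} [CommRing R] {n : Type*} [Fintype n] [DecidableEq n]
    (M : Matrix (Fin 2 ⊕ n) (Fin 2 ⊕ n) R) :
    (adjugate M).toBlocks₁₁.det = M.det * M.toBlocks₂₂.det := by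
  let A' := mvPolynomialX (Fin 2 ⊕ n) (Fin 2 ⊕ n) ℤ
  have h : (adjugate A').toBlocks₁₁.det = A'.det * A'.toBlocks₂₂.det :=
    mul_left_cancel₀ (det_mvPolynomialX_ne_zero (Fin 2 ⊕ n) ℤ) (dj_block_aux A')
  let f := MvPolynomial.aeval (R := ℤ) (fun p : (Fin 2 ⊕ n) × (Fin 2 ⊕ n) => M p.1 p.2)
  have hM : f.mapMatrix A' = M := mvPolynomialX_mapMatrix_aeval ℤ M
  have h1 : (adjugate M).toBlocks₁₁ = f.mapMatrix ((adjugate A').toBlocks₁₁) := by
    rw [← hM, ← AlgHom.map_adjugate]
    rfl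
  have h2 : M.toBlocks₂₂ = f.mapMatrix (A'.toBlocks₂₂) := by
    nth_rewrite 1 [← hM]
    rfl
  rw [h1, ← AlgHom.map_det, h, map_mul, AlgHom.map_det, AlgHom.map_det, hM, ← h2]

/-- Desnanot-Jacobi (Dodgson condensation) -/
theorem desnanot {R : Type*} [CommRing R] (m : ℕ) (A : ℕ → ℕ → R) :
    Matrix.det (Matrix.of fun i j : Fin (m + 2) => A i j) *
      Matrix.det (Matrix.of fun i j : Fin m => A (i + 1) (j + 1)) =
    Matrix.det (Matrix.of fun i j : Fin (m + 1) => A i j) *
      Matrix.det (Matrix.of fun i j : Fin (m + 1) => A (i + 1) (j + 1)) -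
    Matrix.det (Matrix.of fun i j : Fin (m + 1) => A (i + 1) j) *
      Matrix.det (Matrix.of fun i j : Fin (m + 1) => A i (j + 1)) := by
  set B : Matrix (Fin (m + 2)) (Fin (m + 2)) R := Matrix.of fun i j => A i j with hB
  let f : Fin 2 ⊕ Fin m → Fin (m + 2) := Sum.elim ![0, Fin.last (m + 1)] (fun i => i.succ.castSucc)
  have hf : Function.Bijective f := by
    rw [Fintype.bijective_iff_injective_and_card]
    constructor
    · rintro (x | x) (y | y) h
      · fin_cases x <;> fin_cases y <;> simp [f, Fin.ext_iff] at h ⊢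
      · exfalso
        have hy := y.2
        fin_cases x <;> simp [f, Fin.ext_iff] at h
        omega
      · exfalso
        have hx := x.2
        fin_cases y <;> simp [f, Fin.ext_iff] at h
        omega
      · simp [f, Fin.ext_iff] at h
        congr 1
        ext
        exact h
    · simp
      omega
  let e : Fin 2 ⊕ Fin m ≃ Fin (m + 2) := Equiv.ofBijective f hf
  have he0 : e (Sum.inl 0) = 0 := rfl
  have he1 : e (Sum.inl 1) = Fin.last (m + 1) := rfl
  have her : ∀ i, e (Sum.inr i) = i.succ.castSucc := fun i => rfl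
  have h := dj_block (B.submatrix e e)
  rw [det_submatrix_equiv_self, adjugate_submatrix_equiv_self, det_fin_two] at h
  have t22 : (B.submatrix e e).toBlocks₂₂ = Matrix.of fun i j : Fin m => A (i + 1) (j + 1) := by
    ext i j
    simp [toBlocks₂₂, hB, her]
  rw [t22] at h
  simp only [toBlocks₁₁, of_apply, submatrix_apply, he0, he1] at h
  have a00 : adjugate B 0 0 = Matrix.det (Matrix.of fun i j : Fin (m + 1) => A (i + 1) (j + 1)) := by
    rw [adjugate_fin_succ_eq_det_submatrix]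
    simp only [Fin.val_zero, add_zero, pow_zero, one_mul]
    congr 1
  have all : adjugate B (Fin.last (m + 1)) (Fin.last (m + 1)) =
      Matrix.det (Matrix.of fun i j : Fin (m + 1) => A i j) := by
    rw [adjugate_fin_succ_eq_det_submatrix]
    rw [← two_mul, pow_mul]
    norm_num
    congr 1
  have a0l : adjugate B 0 (Fin.last (m + 1)) =
      (-1) ^ (m + 1) * Matrix.det (Matrix.of fun i j : Fin (m + 1) => A i (j + 1)) := by
    rw [adjugate_fin_succ_eq_det_submatrix]
    simp only [Fin.val_zero, add_zero, Fin.val_last]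
    congr 2
    ext i j
    simp [hB]
  have al0 : adjugate B (Fin.last (m + 1)) 0 =
      (-1) ^ (m + 1) * Matrix.det (Matrix.of fun i j : Fin (m + 1) => A (i + 1) j) := by
    rw [adjugate_fin_succ_eq_det_submatrix]
    simp only [Fin.val_zero, zero_add, Fin.val_last]
    congr 2
    ext i j
    simp [hB]
  rw [a00, all, a0l, al0] at h
  rw [← h]
  have hs : ((-1 : R)) ^ (m + 1) * (-1) ^ (m + 1) = 1 := by
    rw [← mul_pow]
    norm_num
  linear_combination (-(Matrix.det (Matrix.of fun i j : Fin (m + 1) => A i (j + 1))) *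
    Matrix.det (Matrix.of fun i j : Fin (m + 1) => A (i + 1) j)) * hs

end DJ

theorem DD_zero (μ : ℕ) (δ : ℤ) : DD 0 μ δ = 1 := by
  unfold DD
  simp

theorem DD_one (μ : ℕ) (δ : ℤ) : DD 1 μ δ = cc δ := by
  unfold DD
  simp

theorem dj_cc_neg (d : ℤ) : cc (-d) = cc d := by
  unfold cc
  congr 1
  rw [← Real.cos_neg]
  congr 1
  push_cast
  ring

theorem dj_cc_add6 (d : ℤ) : cc (d + 6) = -cc d := by
  unfold cc
  push_cast
  rw [show π * ((d : ℝ) + 6) / 6 = π * d / 6 + π by ring, Real.cos_add_pi]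
  ring

/-- factorial form -/
noncomputable def dj_FD (m μ : ℕ) (δ : ℤ) : ℝ :=
  Matrix.det (Matrix.of fun i j : Fin m => ((μ + i + j).factorial : ℝ) * cc ((i : ℤ) - (j : ℤ) + δ))

theorem dj_FD_eq (m μ : ℕ) (δ : ℤ) : dj_FD m μ δ =
    (∏ i ∈ range m, (i.factorial : ℝ)) * ((∏ i ∈ range m, ((μ + i).factorial : ℝ)) * DD m μ δ) := by
  unfold dj_FD DD
  rw [← Fin.prod_univ_eq_prod_range (fun i => (i.factorial : ℝ)),
    ← Fin.prod_univ_eq_prod_range (fun i => ((μ + i).factorial : ℝ)),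
    ← Matrix.det_mul_row, ← Matrix.det_mul_column]
  congr 1
  ext i j
  simp only [Matrix.of_apply]
  have h : (μ + i + j).factorial = (i : ℕ).factorial * ((μ + j).factorial * (μ + i + j).choose i) := by
    have h1 := Nat.choose_mul_factorial_mul_factorial (show (i : ℕ) ≤ μ + i + j by omega)
    rw [show μ + (i : ℕ) + j - i = μ + j by omega] at h1
    rw [← h1]
    ring
  rw [h]
  push_cast
  ring

/-- transposition -/
theorem DD_neg (m μ : ℕ) (δ : ℤ) : DD m μ (-δ) = DD m μ δ := by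
  have h : dj_FD m μ (-δ) = dj_FD m μ δ := by
    unfold dj_FD
    rw [← Matrix.det_transpose]
    congr 1
    ext i j
    simp only [Matrix.transpose_apply, Matrix.of_apply]
    rw [← dj_cc_neg, show μ + (j : ℕ) + i = μ + i + j by ring]
    congr 2
    ring
  rw [dj_FD_eq, dj_FD_eq] at h
  have h1 : (∏ i ∈ range m, (i.factorial : ℝ)) ≠ 0 :=
    prod_ne_zero_iff.2 fun i _ => by exact_mod_cast i.factorial_ne_zero
  have h2 : (∏ i ∈ range m, ((μ + i).factorial : ℝ)) ≠ 0 :=
    prod_ne_zero_iff.2 fun i _ => by exact_mod_cast (μ + i).factorial_ne_zero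
  exact mul_left_cancel₀ h2 (mul_left_cancel₀ h1 h)

theorem DD_add6 (m μ : ℕ) (δ : ℤ) : DD m μ (δ + 6) = (-1) ^ m * DD m μ δ := by
  unfold DD
  have h : (Matrix.of fun i j : Fin m =>
      (Nat.choose (μ + i + j) i : ℝ) * cc ((i : ℤ) - (j : ℤ) + (δ + 6))) =
      -(Matrix.of fun i j : Fin m => (Nat.choose (μ + i + j) i : ℝ) * cc ((i : ℤ) - (j : ℤ) + δ)) := by
    ext i j
    simp only [Matrix.of_apply, Matrix.neg_apply]
    rw [← add_assoc, dj_cc_add6]
    ring
  rw [h, Matrix.det_neg, Fintype.card_fin]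

theorem DD_three_odd (j μ : ℕ) : DD (2 * j + 1) μ 3 = 0 := by
  have h1 := DD_add6 (2 * j + 1) μ (-3)
  rw [show (-3 + 6 : ℤ) = 3 by norm_num, DD_neg] at h1
  have h2 : ((-1 : ℝ)) ^ (2 * j + 1) = -1 := by
    rw [pow_succ, pow_mul]
    norm_num
  rw [h2] at h1
  linarith

theorem dj_FD_DJ (m μ : ℕ) (δ : ℤ) : dj_FD (m + 2) μ δ * dj_FD m (μ + 2) δ =
    dj_FD (m + 1) μ δ * dj_FD (m + 1) (μ + 2) δ -
      dj_FD (m + 1) (μ + 1) (δ + 1) * dj_FD (m + 1) (μ + 1) (δ - 1) := by
  have h := desnanot m (fun i j => ((μ + i + j).factorial : ℝ) * cc ((i : ℤ) - (j : ℤ) + δ))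
  unfold dj_FD
  have e1 : ∀ n : ℕ, (Matrix.of fun i j : Fin n => ((μ + 2 + i + j).factorial : ℝ) *
      cc ((i : ℤ) - (j : ℤ) + δ)) = Matrix.of fun i j : Fin n =>
      ((μ + ((i : ℕ) + 1) + ((j : ℕ) + 1)).factorial : ℝ) *
        cc ((((i : ℕ) + 1 : ℕ) : ℤ) - (((j : ℕ) + 1 : ℕ) : ℤ) + δ) := by
    intro n
    ext i j
    simp only [Matrix.of_apply]
    rw [show μ + 2 + (i : ℕ) + j = μ + (i + 1) + (j + 1) by ring]
    congr 2
    push_cast
    ring
  have e2 : (Matrix.of fun i j : Fin (m + 1) => ((μ + 1 + i + j).factorial : ℝ) *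
      cc ((i : ℤ) - (j : ℤ) + (δ + 1))) = Matrix.of fun i j : Fin (m + 1) =>
      ((μ + ((i : ℕ) + 1) + (j : ℕ)).factorial : ℝ) *
        cc ((((i : ℕ) + 1 : ℕ) : ℤ) - (j : ℤ) + δ) := by
    ext i j
    simp only [Matrix.of_apply]
    rw [show μ + 1 + (i : ℕ) + j = μ + (i + 1) + j by ring]
    congr 2
    push_cast
    ring
  have e3 : (Matrix.of fun i j : Fin (m + 1) => ((μ + 1 + i + j).factorial : ℝ) *
      cc ((i : ℤ) - (j : ℤ) + (δ - 1))) = Matrix.of fun i j : Fin (m + 1) =>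
      ((μ + (i : ℕ) + ((j : ℕ) + 1)).factorial : ℝ) *
        cc ((i : ℤ) - (((j : ℕ) + 1 : ℕ) : ℤ) + δ) := by
    ext i j
    simp only [Matrix.of_apply]
    rw [show μ + 1 + (i : ℕ) + j = μ + i + (j + 1) by ring]
    congr 2
    push_cast
    ring
  rw [e1, e1, e2, e3]
  exact h

theorem DD_DJ (m μ : ℕ) (δ : ℤ) :
    ((m : ℝ) + 1) * (DD (m + 2) μ δ * DD m (μ + 2) δ) =
      ((μ : ℝ) + m + 2) * (DD (m + 1) μ δ * DD (m + 1) (μ + 2) δ) -
      ((μ : ℝ) + 1) * (DD (m + 1) (μ + 1) (δ + 1) * DD (m + 1) (μ + 1) (δ - 1)) := by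
  have h := dj_FD_DJ m μ δ
  simp only [dj_FD_eq] at h
  set a := ∏ i ∈ range m, (i.factorial : ℝ) with ha
  set b := ∏ i ∈ range m, ((μ + 2 + i).factorial : ℝ) with hb
  have ha0 : a ≠ 0 := prod_ne_zero_iff.2 fun i _ => by exact_mod_cast i.factorial_ne_zero
  have hb0 : b ≠ 0 := prod_ne_zero_iff.2 fun i _ => by exact_mod_cast (μ + 2 + i).factorial_ne_zero
  have hm0 : (m.factorial : ℝ) ≠ 0 := by exact_mod_cast m.factorial_ne_zero
  have hμ0 : (μ.factorial : ℝ) ≠ 0 := by exact_mod_cast μ.factorial_ne_zero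
  have e1 : ∏ i ∈ range (m + 1), (i.factorial : ℝ) = a * m.factorial := prod_range_succ _ _
  have e2 : ∏ i ∈ range (m + 2), (i.factorial : ℝ) = a * m.factorial * ((m + 1) * m.factorial) := by
    rw [prod_range_succ, e1, Nat.factorial_succ]
    push_cast
    ring
  have e3 : ∏ i ∈ range (m + 2), ((μ + i).factorial : ℝ) =
      b * (((μ + 1) * μ.factorial) * μ.factorial) := by
    rw [prod_range_succ', prod_range_succ']
    have : ∏ k ∈ range m, ((μ + (k + 1 + 1)).factorial : ℝ) = b := by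
      rw [hb]
      exact prod_congr rfl fun k _ => by rw [show μ + (k + 1 + 1) = μ + 2 + k by ring]
    rw [this, zero_add, add_zero, Nat.factorial_succ]
    push_cast
    ring
  have e4 : (∏ i ∈ range (m + 1), ((μ + i).factorial : ℝ)) * ((μ + (m + 1)).factorial : ℝ) =
      b * (((μ + 1) * μ.factorial) * μ.factorial) := by
    rw [← e3, prod_range_succ (fun i => ((μ + i).factorial : ℝ)) (m + 1)]
  have e5 : ∏ i ∈ range (m + 1), ((μ + 2 + i).factorial : ℝ) =
      b * ((μ + m + 2) * ((μ + (m + 1)).factorial : ℝ)) := by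
    rw [prod_range_succ, show μ + 2 + m = (μ + (m + 1)) + 1 by ring, Nat.factorial_succ]
    push_cast
    ring
  have e6 : ∏ i ∈ range (m + 1), ((μ + 1 + i).factorial : ℝ) = b * ((μ + 1) * μ.factorial) := by
    rw [prod_range_succ', add_zero, Nat.factorial_succ]
    have : ∏ k ∈ range m, ((μ + 1 + (k + 1)).factorial : ℝ) = b := by
      rw [hb]
      exact prod_congr rfl fun k _ => by rw [show μ + 1 + (k + 1) = μ + 2 + k by ring]
    rw [this]
    push_cast
    ring
  rw [e1, e2, e3, e5, e6] at h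
  set c := ∏ i ∈ range (m + 1), ((μ + i).factorial : ℝ) with hc
  set g := ((μ + (m + 1)).factorial : ℝ) with hg
  have hfac : a * a * (m.factorial * m.factorial) * (b * b) * ((μ + 1) * (μ.factorial * μ.factorial)) ≠ 0 := by
    have : (μ : ℝ) + 1 ≠ 0 := by positivity
    positivity
  have h' : a * a * (m.factorial * m.factorial) * (b * b) * ((μ + 1) * (μ.factorial * μ.factorial)) *
      (((m : ℝ) + 1) * (DD (m + 2) μ δ * DD m (μ + 2) δ)) =
      a * a * (m.factorial * m.factorial) * (b * b) * ((μ + 1) * (μ.factorial * μ.factorial)) *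
      (((μ : ℝ) + m + 2) * (DD (m + 1) μ δ * DD (m + 1) (μ + 2) δ) -
      ((μ : ℝ) + 1) * (DD (m + 1) (μ + 1) (δ + 1) * DD (m + 1) (μ + 1) (δ - 1))) := by
    linear_combination h + (a * a * (m.factorial * m.factorial) * b * ((μ + m + 2) *
      (DD (m + 1) μ δ * DD (m + 1) (μ + 2) δ))) * e4
  exact mul_left_cancel₀ hfac h'

end EA
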