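import Pool.Agent.Lead.IP.Defs

/-!
EA: even arm exponents on the cylinder (double cover framework `IPC` of helper64), definitions.

Determinants:
* `DD m μ δ = det_{i,j<m} [ C(μ+i+j, i) · 2cos(π (i-j+δ)/6) ]`;
* `G K m x b` : the symmetric function of the even arm forms (`K = 2k` dangling ends with
  parameters `x 0, ..., x (K-1)`, `m` glued strands with parameters `b 0, ..., b (m-1)`).
The formula for `G` is only used when `b 0, ..., b (m-1)` are generic (`Gn m b`).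
-/

namespace EA
open IP Finset

noncomputable section

/-- `2 cos (π d / 6)` -/
def cc (d : ℤ) : ℝ := 2 * Real.cos (Real.pi * d / 6)

/-- `det_{i,j<m} [ C(μ+i+j, i) · 2cos(π (i-j+δ)/6) ]` -/
def DD (m μ : ℕ) (δ : ℤ) : ℝ :=
  Matrix.det (Matrix.of fun i j : Fin m =>
    (Nat.choose (μ + i + j) i : ℝ) * cc ((i : ℤ) - (j : ℤ) + δ))

/-- `F₊(t) = ∏_{i<K} s (x i - t)` -/
def Fp (K : ℕ) (x : ℕ → ℝ) (t : ℝ) : ℝ := ∏ i ∈ range K, s (x i - t)

/-- `F₋(t) = ∏_{i<K} s (t - x i)` -/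
def Fm (K : ℕ) (x : ℕ → ℝ) (t : ℝ) : ℝ := ∏ i ∈ range K, s (t - x i)

/-- `∏_{i<j<m} (s y s (-y) / sin y)²`, `y = b i - b j` -/
def Gpre (m : ℕ) (b : ℕ → ℝ) : ℝ :=
  ∏ j ∈ range m, ∏ i ∈ range j,
    (s (b i - b j) * s (b j - b i) / Real.sin (b i - b j)) ^ 2

/-- the matrix of `G` -/
def GM (K m : ℕ) (x b : ℕ → ℝ) : Matrix (Fin m) (Fin m) ℝ :=
  Matrix.of fun i j => Fp K x (b i) / s (b i - b j) + Fm K x (b i) / s (b j - b i)

/-- the symmetric function of the even arm forms -/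
def G (K m : ℕ) (x b : ℕ → ℝ) : ℝ :=
  (-1) ^ (m * (m - 1) / 2) * (Real.sqrt 3 / 2) ^ m * Gpre m b * (GM K m x b).det

/-- genericity of `b 0, ..., b (m-1)` -/
def Gn (m : ℕ) (b : ℕ → ℝ) : Prop := ∀ i j, i < m → j < m → i ≠ j →
  Real.sin (b i - b j) ≠ 0 ∧ s (b i - b j) ≠ 0

/-- `app a x y = (x 0, ..., x (a-1), y 0, y 1, ...)` -/
def app (a : ℕ) (x y : ℕ → ℝ) : ℕ → ℝ := fun j => if j < a then x j else y (j - a)

end
end EA
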