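import Pool.Agent.Helper70.EA.Defs
import Pool.Agent.Lead.IP.Trig

/-! MODULE GFORM: the recursion and the symmetries of `G`.

Recursion (`G_rec`): `x 0 = b 0 + π/3` so `Fp (b l) = s (b 0 - b l + π/3) Fp' (b l) = s (b l - b 0) Fp' (b l)`,
`Fm (b l) = s (b l - b 0 - π/3) Fm' (b l) = sin (b l - b 0) Fm' (b l)` (`Fp'`, `Fm'`: the product over
`i = 1, ..., K-1`).  In row `0`: `Fm (b 0) = 0`, so `M_{0j} = Fp (b 0) / s (b 0 - b j)`.  Subtract
`s 0 / s (b 0 - b l)` times column `0` from column `l`: row `0` becomes `(Fp (b 0) / s 0, 0, ..., 0)`, and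
with `p = b i - b 0`, `q = b 0 - b l` the two identities
`s p s q - s 0 s (p+q) = sin p sin q`, `s p s q - s 0 s (p-q) = sin q s (-p)` (product to sum formulas) turn
the entries `(i, l)`, `i, l ≥ 1` into (explicit row and column factors) times the entries of the matrix with
`m - 1` columns and `x 0` replaced by `b 0`. -/
namespace EA
open IP Finset Real

/-! trigonometric identities -/

theorem gf_s_eq (x : ℝ) : s x = Real.sqrt 3 / 2 * Real.cos x + 1 / 2 * Real.sin x := by
  unfold s
  rw [Real.sin_add, Real.sin_pi_div_three, Real.cos_pi_div_three]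

theorem gf_s_zero : s 0 = Real.sqrt 3 / 2 := by rw [gf_s_eq, Real.cos_zero, Real.sin_zero]; ring

theorem gf_s_add_pi (x : ℝ) : s (x + π / 3) = s (-x) := by
  unfold s
  rw [← Real.sin_pi_sub]
  congr 1
  ring

theorem gf_s_pi : s (π / 3) = Real.sqrt 3 / 2 := by
  have := gf_s_add_pi 0
  rw [zero_add, neg_zero, gf_s_zero] at this
  exact this

theorem gf_s_sub_pi (x : ℝ) : s (x - π / 3) = Real.sin x := by
  unfold s
  congr 1
  ring

theorem gf_id1 (p q : ℝ) : s p * s q - s 0 * s (p + q) = Real.sin p * Real.sin q := by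
  have h3 : Real.sqrt 3 * Real.sqrt 3 = 3 := Real.mul_self_sqrt (by norm_num)
  simp only [gf_s_eq, Real.cos_zero, Real.sin_zero, Real.sin_add, Real.cos_add]
  linear_combination (Real.sin p * Real.sin q / 4) * h3

theorem gf_id2 (p q : ℝ) : s p * s q - s 0 * s (p - q) = Real.sin q * s (-p) := by
  have h3 : Real.sqrt 3 * Real.sqrt 3 = 3 := Real.mul_self_sqrt (by norm_num)
  simp only [gf_s_eq, Real.cos_zero, Real.sin_zero, Real.sin_sub, Real.cos_sub, Real.cos_neg,
    Real.sin_neg]
  linear_combination (-(Real.sin p * Real.sin q) / 4) * h3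

theorem G_zero (K : ℕ) (x b : ℕ → ℝ) : G K 0 x b = 1 := by
  unfold G Gpre
  simp

theorem gf_Fp_congr (K : ℕ) {x x' : ℕ → ℝ} (hx : ∀ i < K, x i = x' i) (t : ℝ) : Fp K x t = Fp K x' t := by
  unfold Fp
  exact prod_congr rfl fun i hi => by rw [hx i (mem_range.1 hi)]

theorem gf_Fm_congr (K : ℕ) {x x' : ℕ → ℝ} (hx : ∀ i < K, x i = x' i) (t : ℝ) : Fm K x t = Fm K x' t := by
  unfold Fm
  exact prod_congr rfl fun i hi => by rw [hx i (mem_range.1 hi)]

theorem G_congr (K m : ℕ) {x x' b b' : ℕ → ℝ} (hx : ∀ i < K, x i = x' i) (hb : ∀ i < m, b i = b' i) :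
    G K m x b = G K m x' b' := by
  have h1 : Gpre m b = Gpre m b' := by
    unfold Gpre
    refine prod_congr rfl fun j hj => prod_congr rfl fun i hi => ?_
    rw [mem_range] at hj hi
    rw [hb j hj, hb i (hi.trans hj)]
  have h2 : GM K m x b = GM K m x' b' := by
    ext i j
    simp only [GM, Matrix.of_apply]
    rw [hb i i.2, hb j j.2, gf_Fp_congr K hx, gf_Fm_congr K hx]
  unfold G
  rw [h1, h2]

/-- symmetric in `x` -/
theorem G_perm_x (K m : ℕ) (x b : ℕ → ℝ) (e : Equiv.Perm ℕ) (he : ∀ j, K ≤ j → e j = j) :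
    G K m (fun j => x (e j)) b = G K m x b := by
  have hr : ∀ j, j ∈ range K ↔ e j ∈ range K := by
    intro j
    simp only [mem_range]
    constructor
    · intro h
      by_contra h1
      push Not at h1
      have h2 := he (e j) h1
      have h3 := e.injective h2
      omega
    · intro h
      by_contra h1
      push Not at h1
      rw [he j h1] at h
      omega
  have h1 : ∀ t, Fp K (fun j => x (e j)) t = Fp K x t := fun t => by
    unfold Fp
    exact Finset.prod_equiv e hr fun i _ => rfl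
  have h2 : ∀ t, Fm K (fun j => x (e j)) t = Fm K x t := fun t => by
    unfold Fm
    exact Finset.prod_equiv e hr fun i _ => rfl
  unfold G GM
  simp only [h1, h2]

/-- off-diagonal product -/
theorem gf_prod_offdiag (w : ℕ → ℕ → ℝ) (h1 : ∀ i, w i i = 1) (h2 : ∀ i j, w i j = w j i) (m : ℕ) :
    ∏ j ∈ range m, ∏ i ∈ range m, w i j = (∏ j ∈ range m, ∏ i ∈ range j, w i j) ^ 2 := by
  induction m with
  | zero => simp
  | succ m ih =>
    have e1 : ∏ j ∈ range (m + 1), ∏ i ∈ range (m + 1), w i j =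
        (∏ j ∈ range m, ∏ i ∈ range m, w i j) * (∏ j ∈ range m, w m j) * ∏ i ∈ range m, w i m := by
      rw [prod_range_succ, prod_range_succ (fun i => w i m), h1, mul_one]
      congr 1
      rw [← prod_mul_distrib]
      exact prod_congr rfl fun j _ => prod_range_succ _ _
    rw [e1, ih, prod_range_succ, mul_pow]
    rw [prod_congr rfl fun j _ => h2 m j]
    ring

theorem gf_Gpre_nonneg (m : ℕ) (b : ℕ → ℝ) : 0 ≤ Gpre m b := by
  unfold Gpre
  exact prod_nonneg fun j _ => prod_nonneg fun i _ => sq_nonneg _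

theorem gf_Gpre_perm (m : ℕ) (b : ℕ → ℝ) (e : Equiv.Perm ℕ) (hr : ∀ j, j ∈ range m ↔ e j ∈ range m) :
    Gpre m (fun j => b (e j)) = Gpre m b := by
  set w : (ℕ → ℝ) → ℕ → ℕ → ℝ := fun b i j =>
    if i = j then 1 else (s (b i - b j) * s (b j - b i) / Real.sin (b i - b j)) ^ 2 with hw
  have hw1 : ∀ b i, w b i i = 1 := fun b i => if_pos rfl
  have hw2 : ∀ b i j, w b i j = w b j i := by
    intro b i j
    rw [hw]
    by_cases h : i = j
    · subst h; rfl
    · have h' : ¬ j = i := fun h1 => h h1.symm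
      simp only [h, h', if_false]
      rw [show b j - b i = -(b i - b j) by ring, Real.sin_neg, div_neg, neg_sq]
      rw [mul_comm (s (b i - b j))]
  have hG : ∀ b, Gpre m b = ∏ j ∈ range m, ∏ i ∈ range j, w b i j := by
    intro b
    unfold Gpre
    refine prod_congr rfl fun j _ => prod_congr rfl fun i hi => ?_
    rw [mem_range] at hi
    rw [hw]
    simp only [hi.ne, if_false]
  have h1 : Gpre m (fun j => b (e j)) ^ 2 = Gpre m b ^ 2 := by
    rw [hG, hG, ← gf_prod_offdiag _ (hw1 _) (hw2 _), ← gf_prod_offdiag _ (hw1 _) (hw2 _)]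
    refine Finset.prod_equiv e hr fun j _ => Finset.prod_equiv e hr fun i _ => ?_
    rw [hw]
    simp only [e.injective.eq_iff]
  have h2 := abs_eq_abs.2 ((sq_eq_sq_iff_eq_or_eq_neg).1 h1)
  rwa [abs_of_nonneg (gf_Gpre_nonneg _ _), abs_of_nonneg (gf_Gpre_nonneg _ _)] at h2

/-- symmetric in `b` -/
theorem G_perm_b (K m : ℕ) (x b : ℕ → ℝ) (e : Equiv.Perm ℕ) (he : ∀ j, m ≤ j → e j = j) :
    G K m x (fun j => b (e j)) = G K m x b := by
  have hr : ∀ j, j ∈ range m ↔ e j ∈ range m := by
    intro j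
    simp only [mem_range]
    constructor
    · intro h
      by_contra h1
      push Not at h1
      have h2 := he (e j) h1
      have h3 := e.injective h2
      omega
    · intro h
      by_contra h1
      push Not at h1
      rw [he j h1] at h
      omega
  have hr' : ∀ j, j < m → e.symm j < m := by
    intro j hj
    have := hr (e.symm j)
    rw [Equiv.apply_symm_apply] at this
    exact mem_range.1 (this.2 (mem_range.2 hj))
  let e' : Fin m ≃ Fin m :=
    { toFun := fun i => ⟨e i, mem_range.1 ((hr i).1 (mem_range.2 i.2))⟩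
      invFun := fun i => ⟨e.symm i, hr' i i.2⟩
      left_inv := fun i => by ext; simp
      right_inv := fun i => by ext; simp }
  have h2 : GM K m x (fun j => b (e j)) = (GM K m x b).submatrix e' e' := by
    ext i j
    simp [GM, e']
  unfold G
  rw [gf_Gpre_perm m b e hr, h2, Matrix.det_submatrix_equiv_self]

/-- invariance under the change of all signs -/
theorem G_neg (K m : ℕ) (x b : ℕ → ℝ) : G K m (fun j => -x j) (fun j => -b j) = G K m x b := by
  have h1 : ∀ t, Fp K (fun j => -x j) (-t) = Fm K x t := fun t => by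
    unfold Fp Fm
    exact prod_congr rfl fun i _ => by congr 1; ring
  have h2 : ∀ t, Fm K (fun j => -x j) (-t) = Fp K x t := fun t => by
    unfold Fp Fm
    exact prod_congr rfl fun i _ => by congr 1; ring
  have h3 : Gpre m (fun j => -b j) = Gpre m b := by
    unfold Gpre
    refine prod_congr rfl fun j _ => prod_congr rfl fun i _ => ?_
    rw [show -b i - -b j = -(b i - b j) by ring, show -b j - -b i = b i - b j by ring, Real.sin_neg,
      div_neg, neg_sq, show -(b i - b j) = b j - b i by ring, mul_comm]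
  have h4 : GM K m (fun j => -x j) (fun j => -b j) = GM K m x b := by
    ext i j
    simp only [GM, Matrix.of_apply]
    rw [h1, h2, show -b i - -b j = b j - b i by ring, show -b j - -b i = b i - b j by ring, add_comm]
  unfold G
  rw [h3, h4]

theorem gf_Fp_update (K j : ℕ) (hj : j < K) (x : ℕ → ℝ) (t y : ℝ) :
    Fp K (Function.update x j t) y = (∏ i ∈ (range K).erase j, s (x i - y)) * s (t + (-y)) := by
  unfold Fp
  rw [← Finset.prod_erase_mul _ _ (mem_range.2 hj), Function.update_self, ← sub_eq_add_neg]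
  congr 1
  exact prod_congr rfl fun i hi => by rw [Function.update_of_ne (ne_of_mem_erase hi)]

theorem gf_Fm_update (K j : ℕ) (hj : j < K) (x : ℕ → ℝ) (t y : ℝ) :
    Fm K (Function.update x j t) y = (∏ i ∈ (range K).erase j, s (y - x i)) * s (y - t) := by
  unfold Fm
  rw [← Finset.prod_erase_mul _ _ (mem_range.2 hj), Function.update_self]
  congr 1
  exact prod_congr rfl fun i hi => by rw [Function.update_of_ne (ne_of_mem_erase hi)]

/-- degree `m` in each `x` -/
theorem G_TP (K m j : ℕ) (hj : j < K) (x b : ℕ → ℝ) :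
    TP m (fun t => G K m (Function.update x j t) b) := by
  have hM : ∀ p q : Fin m, TP 1 (fun t => GM K m (Function.update x j t) b p q) := by
    intro p q
    have e : (fun t => GM K m (Function.update x j t) b p q) = fun t =>
        ((∏ i ∈ (range K).erase j, s (x i - b p)) / s (b p - b q)) * s (t + (-b p)) +
        ((∏ i ∈ (range K).erase j, s (b p - x i)) / s (b q - b p)) * s (b p - t) := by
      funext t
      simp only [GM, Matrix.of_apply]
      rw [gf_Fp_update K j hj, gf_Fm_update K j hj]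
      ring
    rw [e]
    exact ((TP.s_add (-b p)).smul _).add ((TP.s_sub (b p)).smul _)
  have hd : TP m (fun t => (GM K m (Function.update x j t) b).det) := by
    have e : (fun t => (GM K m (Function.update x j t) b).det) = fun t =>
        ∑ σ : Equiv.Perm (Fin m), ((Equiv.Perm.sign σ : ℤ) : ℝ) *
          ∏ i : Fin m, GM K m (Function.update x j t) b (σ i) i := by
      funext t
      rw [Matrix.det_apply']
    rw [e]
    refine TP.sum _ fun σ _ => ?_
    have h1 : TP (∑ i : Fin m, 1) (fun t => ∏ i : Fin m, GM K m (Function.update x j t) b (σ i) i) :=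
      TP.prod _ fun i _ => hM _ _
    rw [Finset.sum_const, Finset.card_univ, Fintype.card_fin, smul_eq_mul, mul_one] at h1
    exact h1.smul _
  exact hd.smul _

theorem gf_s_continuous : Continuous s := by
  unfold s
  fun_prop

theorem G_continuous (K m : ℕ) (b : ℕ → ℝ) : Continuous (fun x => G K m x b) := by
  have hp : ∀ t, Continuous (fun x : ℕ → ℝ => Fp K x t) := fun t => by
    unfold Fp
    exact continuous_finsetProd _ fun i _ =>
      gf_s_continuous.comp ((continuous_apply i).sub continuous_const)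
  have hm : ∀ t, Continuous (fun x : ℕ → ℝ => Fm K x t) := fun t => by
    unfold Fm
    exact continuous_finsetProd _ fun i _ =>
      gf_s_continuous.comp (continuous_const.sub (continuous_apply i))
  have hM : Continuous (fun x => (GM K m x b).det) := by
    refine Continuous.matrix_det ?_
    refine continuous_matrix fun i j => ?_
    simp only [GM, Matrix.of_apply]
    exact ((hp _).div_const _).add ((hm _).div_const _)
  unfold G
  exact continuous_const.mul hM

theorem gf_Fp_succ (K : ℕ) (x : ℕ → ℝ) (t : ℝ) :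
    Fp (K + 1) x t = Fp K (fun i => x (i + 1)) t * s (x 0 - t) := by
  unfold Fp
  rw [prod_range_succ']

theorem gf_Fm_succ (K : ℕ) (x : ℕ → ℝ) (t : ℝ) :
    Fm (K + 1) x t = Fm K (fun i => x (i + 1)) t * s (t - x 0) := by
  unfold Fm
  rw [prod_range_succ']

theorem gf_Gpre_succ (m : ℕ) (b : ℕ → ℝ) :
    Gpre (m + 1) b = Gpre m (fun j => b (j + 1)) *
      ∏ j ∈ range m, (s (b 0 - b (j + 1)) * s (b (j + 1) - b 0) / Real.sin (b 0 - b (j + 1))) ^ 2 := by
  unfold Gpre
  rw [prod_range_succ', range_zero, prod_empty, mul_one, ← prod_mul_distrib]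
  exact prod_congr rfl fun j _ => prod_range_succ' _ _

/-- column operation: subtract multiples of the column `0` -/
theorem gf_det_col {m : ℕ} (M : Matrix (Fin (m + 1)) (Fin (m + 1)) ℝ) (c : Fin m → ℝ)
    (h : ∀ l : Fin m, M 0 l.succ = c l * M 0 0) :
    M.det = M 0 0 * Matrix.det (Matrix.of fun i l : Fin m => M i.succ l.succ - c l * M i.succ 0) := by
  set N : Matrix (Fin (m + 1)) (Fin (m + 1)) ℝ :=
    Matrix.of fun i l => M i l - Fin.cons (α := fun _ => ℝ) 0 c l * M i 0 with hN
  have h1 : M.det = N.det := by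
    rw [← Matrix.det_transpose M, ← Matrix.det_transpose N]
    refine Matrix.det_eq_of_forall_row_eq_smul_add_const
      (fun l => Fin.cons (α := fun _ => ℝ) 0 c l) 0 (by simp) ?_
    intro l i
    simp [hN, Matrix.transpose_apply]
  rw [h1, Matrix.det_succ_row_zero, Fin.sum_univ_succ]
  have h2 : ∀ l : Fin m, N 0 l.succ = 0 := fun l => by
    simp [hN, h l]
  have h3 : N 0 0 = M 0 0 := by simp [hN]
  have h4 : N.submatrix Fin.succ (Fin.succAbove 0) =
      Matrix.of fun i l : Fin m => M i.succ l.succ - c l * M i.succ 0 := by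
    ext i l
    simp [hN]
  rw [Finset.sum_eq_zero fun l _ => by rw [h2 l]; ring, h3, h4]
  simp

/-- the recursion at `x 0 = b 0 + π/3` -/
theorem G_rec (K m : ℕ) (x b : ℕ → ℝ) (hb : Gn (m + 1) b) (hx : x 0 = b 0 + π / 3) :
    G (K + 1) (m + 1) x b = Real.sqrt 3 / 2 * (∏ i ∈ range K, s (x (i + 1) - b 0)) *
      (∏ j ∈ range m, s (b (j + 1) - b 0) ^ 2) *
      G (K + 1) m (Function.update x 0 (b 0)) (fun j => b (j + 1)) := by
  have hs0 : s 0 ≠ 0 := by
    rw [gf_s_zero]
    positivity
  set M := GM (K + 1) (m + 1) x b with hM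
  set x' : ℕ → ℝ := fun i => x (i + 1) with hx'
  have hFp : ∀ t, Fp (K + 1) x t = Fp K x' t * s (t - b 0) := fun t => by
    rw [gf_Fp_succ, hx, show b 0 + π / 3 - t = (b 0 - t) + π / 3 by ring, gf_s_add_pi]
    congr 2
    ring
  have hFm : ∀ t, Fm (K + 1) x t = Fm K x' t * Real.sin (t - b 0) := fun t => by
    rw [gf_Fm_succ, hx, show t - (b 0 + π / 3) = (t - b 0) - π / 3 by ring, gf_s_sub_pi]
  have hM00 : M 0 0 = Fp K x' (b 0) := by
    rw [hM]
    simp only [GM, Matrix.of_apply, Fin.val_zero]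
    rw [hFp, hFm, sub_self, Real.sin_zero, mul_zero, zero_div, add_zero, mul_div_assoc, div_self hs0,
      mul_one]
  have hM0l : ∀ l : Fin m, M 0 l.succ = (s 0 / s (b 0 - b (l + 1))) * M 0 0 := by
    intro l
    rw [hM00, hM]
    simp only [GM, Matrix.of_apply, Fin.val_zero, Fin.val_succ]
    rw [hFp, hFm, sub_self, Real.sin_zero, mul_zero, zero_div, add_zero]
    ring
  have hdet := gf_det_col M (fun l => s 0 / s (b 0 - b (l + 1))) hM0l
  have hN : (Matrix.of fun i l : Fin m => M i.succ l.succ - (s 0 / s (b 0 - b (l + 1))) * M i.succ 0) =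
      Matrix.of fun i l : Fin m => (Real.sin (b (i + 1) - b 0) / s (b 0 - b (i + 1))) *
        ((Real.sin (b 0 - b (l + 1)) / s (b 0 - b (l + 1))) *
          GM (K + 1) m (Function.update x 0 (b 0)) (fun j => b (j + 1)) i l) := by
    ext i l
    have hi : (i : ℕ) + 1 < m + 1 := by have := i.2; omega
    have hl : (l : ℕ) + 1 < m + 1 := by have := l.2; omega
    have hp1 := (hb (i + 1) 0 hi (by omega) (by omega)).2
    have hp2 := (hb 0 (i + 1) (by omega) hi (by omega)).2
    have hq1 := (hb 0 (l + 1) (by omega) hl (by omega)).2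
    rw [hM]
    simp only [GM, Matrix.of_apply, Fin.val_zero, Fin.val_succ]
    have hFp' : Fp (K + 1) (Function.update x 0 (b 0)) (b (i + 1)) =
        Fp K x' (b (i + 1)) * s (b 0 - b (i + 1)) := by
      rw [gf_Fp_succ, Function.update_self]
      rfl
    have hFm' : Fm (K + 1) (Function.update x 0 (b 0)) (b (i + 1)) =
        Fm K x' (b (i + 1)) * s (b (i + 1) - b 0) := by
      rw [gf_Fm_succ, Function.update_self]
      rfl
    rw [hFp, hFm, hFp', hFm']
    set p := b (i + 1) - b 0 with hp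
    set q := b 0 - b (l + 1) with hq
    have e1 : b (i + 1) - b (l + 1) = p + q := by rw [hp, hq]; ring
    have e2 : b (l + 1) - b (i + 1) = -p - q := by rw [hp, hq]; ring
    have e3 : b 0 - b (i + 1) = -p := by rw [hp]; ring
    rw [e3] at hp2
    rw [e1, e2, e3]
    have i1 := gf_id1 p q
    have i2 := gf_id2 (-p) q
    rw [neg_neg] at i2
    have hpq1 : s (p + q) ≠ 0 := by
      by_cases h : (i : ℕ) = l
      · have : p + q = 0 := by rw [hp, hq, h]; ring
        rw [this]
        exact hs0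
      · rw [← e1]
        exact (hb (i + 1) (l + 1) hi hl (by omega)).2
    have hpq2 : s (-p - q) ≠ 0 := by
      by_cases h : (i : ℕ) = l
      · have : -p - q = 0 := by rw [hp, hq, h]; ring
        rw [this]
        exact hs0
      · rw [← e2]
        exact (hb (l + 1) (i + 1) hl hi (by omega)).2
    have t1 : s p / s (p + q) - s 0 / s q * (s p / s p) = Real.sin p * Real.sin q / (s (p + q) * s q) := by
      rw [← i1]
      field_simp
    have t2 : 1 / s (-p - q) - s 0 / s q * (1 / s (-p)) = Real.sin q * s p / (s (-p - q) * s q * s (-p)) := by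
      rw [← i2]
      field_simp
    have : Fp K x' (b (i + 1)) * s p / s (p + q) + Fm K x' (b (i + 1)) * Real.sin p / s (-p - q) -
        s 0 / s q * (Fp K x' (b (i + 1)) * s p / s p + Fm K x' (b (i + 1)) * Real.sin p / s (-p)) =
        Fp K x' (b (i + 1)) * (s p / s (p + q) - s 0 / s q * (s p / s p)) +
        Fm K x' (b (i + 1)) * Real.sin p * (1 / s (-p - q) - s 0 / s q * (1 / s (-p))) := by
      ring
    rw [this, t1, t2]
    field_simp
  have hdet2 : Matrix.det (Matrix.of fun i l : Fin m => (Real.sin (b (i + 1) - b 0) / s (b 0 - b (i + 1))) *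
        ((Real.sin (b 0 - b (l + 1)) / s (b 0 - b (l + 1))) *
          GM (K + 1) m (Function.update x 0 (b 0)) (fun j => b (j + 1)) i l)) =
      (∏ j ∈ range m, (Real.sin (b (j + 1) - b 0) / s (b 0 - b (j + 1)))) *
        ((∏ j ∈ range m, (Real.sin (b 0 - b (j + 1)) / s (b 0 - b (j + 1)))) *
        (GM (K + 1) m (Function.update x 0 (b 0)) (fun j => b (j + 1))).det) := by
    rw [← Fin.prod_univ_eq_prod_range (fun j => Real.sin (b (j + 1) - b 0) / s (b 0 - b (j + 1))),
      ← Fin.prod_univ_eq_prod_range (fun j => Real.sin (b 0 - b (j + 1)) / s (b 0 - b (j + 1))),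
      ← Matrix.det_mul_row, ← Matrix.det_mul_column]
    rfl
  have hsgn : ((-1 : ℝ)) ^ ((m + 1) * (m + 1 - 1) / 2) = (-1) ^ (m * (m - 1) / 2) * (-1) ^ m := by
    rw [← pow_add]
    congr 1
    rw [Nat.add_sub_cancel]
    have h1 : (m + 1) * m = m * (m - 1) + 2 * m := by
      rcases m with _ | m
      · rfl
      · rw [Nat.add_sub_cancel]; ring
    rw [h1, Nat.add_mul_div_left _ _ (by norm_num : 0 < 2)]
  have hprod : (∏ j ∈ range m, (s (b 0 - b (j + 1)) * s (b (j + 1) - b 0) / Real.sin (b 0 - b (j + 1))) ^ 2) *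
      ((∏ j ∈ range m, (Real.sin (b (j + 1) - b 0) / s (b 0 - b (j + 1)))) *
      (∏ j ∈ range m, (Real.sin (b 0 - b (j + 1)) / s (b 0 - b (j + 1))))) =
      (-1) ^ m * ∏ j ∈ range m, s (b (j + 1) - b 0) ^ 2 := by
    rw [← prod_mul_distrib, ← prod_mul_distrib]
    rw [show ((-1 : ℝ)) ^ m = ∏ j ∈ range m, (-1 : ℝ) by rw [prod_const, card_range], ← prod_mul_distrib]
    refine prod_congr rfl fun j hj => ?_
    rw [mem_range] at hj
    have h1 := hb 0 (j + 1) (by omega) (by omega) (by omega)
    have h2 := (hb (j + 1) 0 (by omega) (by omega) (by omega)).2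
    have h3 : Real.sin (b (j + 1) - b 0) = -Real.sin (b 0 - b (j + 1)) := by
      rw [← Real.sin_neg]
      congr 1
      ring
    rw [h3]
    have h4 := h1.1
    have h5 := h1.2
    field_simp
  unfold G
  rw [← hM, hdet, hN, hdet2, hM00, gf_Gpre_succ, hsgn]
  have hFp0 : Fp K x' (b 0) = ∏ i ∈ range K, s (x (i + 1) - b 0) := rfl
  rw [hFp0]
  have h11 : ((-1 : ℝ)) ^ m * (-1) ^ m = 1 := by
    rw [← mul_pow]
    norm_num
  set A := ∏ i ∈ range K, s (x (i + 1) - b 0)
  set B := ∏ j ∈ range m, s (b (j + 1) - b 0) ^ 2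
  set P := ∏ j ∈ range m, (s (b 0 - b (j + 1)) * s (b (j + 1) - b 0) / Real.sin (b 0 - b (j + 1))) ^ 2
  set Q := ∏ j ∈ range m, (Real.sin (b (j + 1) - b 0) / s (b 0 - b (j + 1)))
  set R := ∏ j ∈ range m, (Real.sin (b 0 - b (j + 1)) / s (b 0 - b (j + 1)))
  set D := (GM (K + 1) m (Function.update x 0 (b 0)) (fun j => b (j + 1))).det
  set Gp := Gpre m (fun j => b (j + 1))
  set sg := ((-1 : ℝ)) ^ (m * (m - 1) / 2)
  have e1 : sg * (-1) ^ m * (Real.sqrt 3 / 2) ^ (m + 1) * (Gp * P) * (A * (Q * (R * D))) =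
      sg * (-1) ^ m * (Real.sqrt 3 / 2) ^ (m + 1) * Gp * A * D * (P * (Q * R)) := by ring
  rw [e1, hprod]
  have e2 : sg * (-1) ^ m * (Real.sqrt 3 / 2) ^ (m + 1) * Gp * A * D * ((-1) ^ m * B) =
      ((-1) ^ m * (-1) ^ m) * (sg * (Real.sqrt 3 / 2) ^ (m + 1) * Gp * A * D * B) := by ring
  rw [e2, h11]
  ring

/-- the recursion at `x 0 = b 0 - π/3` -/
theorem G_rec' (K m : ℕ) (x b : ℕ → ℝ) (hb : Gn (m + 1) b) (hx : x 0 = b 0 - π / 3) :
    G (K + 1) (m + 1) x b = Real.sqrt 3 / 2 * (∏ i ∈ range K, s (b 0 - x (i + 1))) *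
      (∏ j ∈ range m, s (b 0 - b (j + 1)) ^ 2) *
      G (K + 1) m (Function.update x 0 (b 0)) (fun j => b (j + 1)) := by
  have hb' : Gn (m + 1) (fun j => -b j) := by
    intro i j hi hj hij
    have h1 := hb i j hi hj hij
    have h2 := hb j i hj hi (Ne.symm hij)
    constructor
    · rw [show -b i - -b j = -(b i - b j) by ring, Real.sin_neg]
      exact neg_ne_zero.2 h1.1
    · rw [show -b i - -b j = b j - b i by ring]
      exact h2.2
  have h := G_rec K m (fun j => -x j) (fun j => -b j) hb' (by rw [hx]; ring)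
  rw [G_neg] at h
  rw [h]
  have e1 : Function.update (fun j => -x j) 0 (-b 0) = fun j => -(Function.update x 0 (b 0) j) := by
    funext j
    by_cases hj : j = 0
    · subst hj; simp
    · simp [hj]
  rw [e1, G_neg (K + 1) m (Function.update x 0 (b 0)) (fun j => b (j + 1))]
  congr 2
  · congr 1
    exact prod_congr rfl fun i _ => by congr 1; ring
  · exact prod_congr rfl fun i _ => by congr 2; ring

end EA
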