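import Pool.Agent.Helper64.IPC.ArmD
import Pool.Agent.Helper64.IPC.Asym
import Pool.Agent.Helper70.EA.Gform
import Pool.Agent.Helper70.EA.Conf
import Pool.Agent.Helper70.EA.Asym

/-! MODULE FINAL: the value of the even arm forms at the homogeneous point, and the exponents.

`P_k(L) = bil (arf k k) (P L 0) (P L 0)`, `k ≤ L`: probability that the `2k` ends of `k` adjacent cut strands are pairwise not
joined by a path closing contractibly.  `P_k(L) = (√3/2)^{L(L-1)} DD (L-k) (2k) 0 / Z_L(0)²` and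
`c L^{-(4k²-1)/12} ≤ P_k(L) ≤ C L^{-(4k²-1)/12}` for every `k ≥ 1`. -/
namespace EA
open IPC Finset Real Filter Topology

theorem fi_sin3 (x : ℝ) : Real.sin (3 * x) = 4 * Real.sin x * (IP.s x * IP.s (-x)) := by
  have h3 : Real.sqrt 3 * Real.sqrt 3 = 3 := Real.mul_self_sqrt (by norm_num)
  rw [gf_s_eq, gf_s_eq, Real.cos_neg, Real.sin_neg, Real.sin_three_mul]
  have hc : Real.cos x ^ 2 = 1 - Real.sin x ^ 2 := by
    have := Real.sin_sq_add_cos_sq x
    linarith
  linear_combination (-(Real.sin x * Real.cos x ^ 2)) * h3 - 3 * Real.sin x * hc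

theorem fi_gn {n : ℕ} {b : ℕ → ℝ}
    (h : ∀ i j, i < n → j < n → i ≠ j → Real.sin (3 * (b i - b j)) ≠ 0) : Gn n b := by
  intro i j hi hj hij
  have h1 := h i j hi hj hij
  rw [fi_sin3] at h1
  constructor
  · intro h2
    rw [h2] at h1
    simp at h1
  · intro h2
    rw [h2] at h1
    simp at h1

/-- `G` is the arm function -/
theorem G_ArmFun {k : ℕ} (hk : 0 < k) : ArmFun k (fun m y b => ((G (2 * k) m y b : ℝ) : ℂ)) where
  zero y b := by
    rw [G_zero]
    simp
  congr m y y' b b' hy hb := by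
    rw [G_congr (2 * k) m hy hb]
  permy m e he y b := by
    rw [G_perm_x (2 * k) m y b e he]
  permb m e he y b := by
    rw [G_perm_b (2 * k) m y b e he]
  neg m y b := by
    rw [G_neg]
  tpc m y b hg := by
    exact TPC.of_TP (G_TP (2 * k) m 0 (by omega) y b)
  recur m y b hg h := by
    obtain ⟨K, hK⟩ : ∃ K, 2 * k = K + 1 := ⟨2 * k - 1, by omega⟩
    have hb : Gn (m + 1) b := by
      refine fi_gn fun i j hi hj hij => ?_
      have := hg (2 * k + i) (2 * k + j) (by omega) (by omega) (by omega) (by omega) (by omega)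
      unfold cat at this
      rw [if_neg (by omega), if_neg (by omega), Nat.add_sub_cancel_left, Nat.add_sub_cancel_left] at this
      exact this
    rw [← Complex.ofReal_mul]
    congr 1
    rw [hK, G_rec' K m y b hb (by rw [h]; ring)]
    congr 2
    · congr 1
      rw [Finset.prod_Ico_eq_prod_range, Nat.add_sub_cancel]
      refine prod_congr rfl fun i _ => ?_
      rw [h, add_comm 1 i, show y 0 + π / 3 - y (i + 1) = -(y (i + 1) - y 0) + π / 3 by ring, gf_s_add_pi,
        neg_neg]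
    · refine prod_congr rfl fun j _ => ?_
      rw [h, show y 0 + π / 3 - b (j + 1) = -(b (j + 1) - y 0) + π / 3 by ring, gf_s_add_pi,
        neg_neg]

theorem fi_sin_ne {x : ℝ} (h0 : x ≠ 0) (h : |x| < 1) : Real.sin (3 * x) ≠ 0 := by
  have hpi := Real.pi_gt_three
  have h1 := abs_lt.1 h
  rcases lt_or_gt_of_ne h0 with h2 | h2
  · have := Real.sin_neg_of_neg_of_neg_pi_lt (x := 3 * x) (by linarith) (by linarith [h1.1])
    exact this.ne
  · have := Real.sin_pos_of_pos_of_lt_pi (x := 3 * x) (by linarith) (by linarith [h1.2])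
    exact this.ne'

theorem fi_f0_zero (k : ℕ) : f0 k (fun _ => 0) = (Real.sqrt 3 / 2) ^ (k * (k - 1) / 2) := by
  unfold f0
  simp only [sub_zero, gf_s_zero, prod_const, card_range]
  rw [Finset.prod_pow_eq_pow_sum, Finset.sum_range_id]

theorem fi_f0_continuous (k : ℕ) : Continuous (f0 k) := by
  unfold f0
  refine continuous_finsetProd _ fun j _ => continuous_finsetProd _ fun i _ => ?_
  exact gf_s_continuous.comp ((continuous_apply i).sub (continuous_apply j))

theorem fi_arm_form {k : ℕ} (hk : 0 < k) (m : ℕ) (x x' b : ℕ → ℝ)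
    (hg : FG (2 * k + m) (cat (2 * k) (cat k x x') b)) :
    AF k k m x x' b = f0 k x * f0 k (fun j => -x' j) * G (2 * k) m (cat k x x') b := by
  have h := arm_form hk (G_ArmFun hk) m k k (by omega) x x' b hg
  exact_mod_cast h

/-- the dangling parameters tend to `0`, `b` fixed -/
theorem fi_step1 {k : ℕ} (hk : 0 < k) (m : ℕ) {δ : ℝ} (hδ : 0 < δ) (hδ1 : δ * (m + 1) < 1 / 2) :
    AF k k m (fun _ => 0) (fun _ => 0) (fun i => δ * ((i : ℝ) + 1)) =
      (Real.sqrt 3 / 2) ^ (k * (k - 1)) * G (2 * k) m (fun _ => 0) (fun i => δ * ((i : ℝ) + 1)) := by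
  set b : ℕ → ℝ := fun i => δ * ((i : ℝ) + 1) with hb
  set X : ℝ → ℕ → ℝ := fun η i => η * ((i : ℝ) + 1) with hX
  set X' : ℝ → ℕ → ℝ := fun η i => η * ((k : ℝ) + i + 1) with hX'
  have hXc : Continuous X := by
    refine continuous_pi fun i => ?_
    rw [hX]
    fun_prop
  have hXc' : Continuous X' := by
    refine continuous_pi fun i => ?_
    rw [hX']
    fun_prop
  have hcat : Continuous (fun η => cat k (X η) (X' η)) := by
    refine continuous_pi fun i => ?_
    unfold cat
    by_cases hi : i < k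
    · simp only [hi, if_true]
      exact (continuous_apply i).comp hXc
    · simp only [hi, if_false]
      exact (continuous_apply (i - k)).comp hXc'
  have hX0 : X 0 = fun _ => 0 := by
    funext i
    simp [hX]
  have hX0' : X' 0 = fun _ => 0 := by
    funext i
    simp [hX']
  have h1 : Tendsto (fun η : ℝ => AF k k m (X η) (X' η) b) (𝓝[>] 0)
      (𝓝 (AF k k m (fun _ => 0) (fun _ => 0) b)) := by
    have hc : Continuous (fun η : ℝ => AF k k m (X η) (X' η) b) := by
      have h := (AF_continuous k k m).comp (hXc.prodMk (hXc'.prodMk (continuous_const (y := b))))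
      simpa only [Function.comp_def] using h
    have := hc.tendsto 0
    simp only [hX0, hX0'] at this
    exact this.mono_left nhdsWithin_le_nhds
  have h2 : Tendsto (fun η : ℝ => f0 k (X η) * f0 k (fun j => -X' η j) * G (2 * k) m (cat k (X η) (X' η)) b)
      (𝓝[>] 0) (𝓝 ((Real.sqrt 3 / 2) ^ (k * (k - 1)) * G (2 * k) m (fun _ => 0) b)) := by
    have hn : Continuous (fun η => fun j => -X' η j) := by
      refine continuous_pi fun i => ?_
      exact ((continuous_apply i).comp hXc').neg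
    have hc : Continuous (fun η : ℝ =>
        f0 k (X η) * f0 k (fun j => -X' η j) * G (2 * k) m (cat k (X η) (X' η)) b) :=
      (((fi_f0_continuous k).comp hXc).mul ((fi_f0_continuous k).comp hn)).mul
        ((G_continuous (2 * k) m b).comp hcat)
    have := hc.tendsto 0
    simp only [hX0, hX0', neg_zero] at this
    have e : cat k (fun _ => (0 : ℝ)) (fun _ => 0) = fun _ => 0 := by
      funext i
      unfold cat
      split_ifs <;> rfl
    rw [e, fi_f0_zero, ← pow_add] at this
    have e2 : k * (k - 1) / 2 + k * (k - 1) / 2 = k * (k - 1) := by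
      have : Even (k * (k - 1)) := Nat.even_mul_pred_self k
      obtain ⟨r, hr⟩ := this
      omega
    rw [e2] at this
    exact this.mono_left nhdsWithin_le_nhds
  refine tendsto_nhds_unique_of_eventuallyEq h1 h2 ?_
  have hev : ∀ᶠ η : ℝ in 𝓝[>] 0, η * (2 * k + 1) < δ ∧ η * (2 * k + 1) < 1 / 2 := by
    have hc : Continuous (fun η : ℝ => η * (2 * k + 1)) := by fun_prop
    have ht : Tendsto (fun η : ℝ => η * (2 * k + 1)) (𝓝[>] 0) (𝓝 0) := by
      have := hc.tendsto 0
      rw [zero_mul] at this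
      exact this.mono_left nhdsWithin_le_nhds
    exact (ht.eventually (gt_mem_nhds hδ)).and (ht.eventually (gt_mem_nhds (by norm_num)))
  filter_upwards [hev, self_mem_nhdsWithin] with η hη hη0
  rw [Set.mem_Ioi] at hη0
  refine fi_arm_form hk m _ _ _ ?_
  -- values of the concatenation
  have hval : ∀ i, i < 2 * k → cat (2 * k) (cat k (X η) (X' η)) b i = η * ((i : ℝ) + 1) := by
    intro i hi
    unfold cat
    rw [if_pos hi]
    by_cases h : i < k
    · rw [if_pos h]
    · rw [if_neg h, hX']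
      simp only
      rw [Nat.cast_sub (by omega)]
      ring
  have hval2 : ∀ i, ¬ i < 2 * k → cat (2 * k) (cat k (X η) (X' η)) b i = δ * (((i - 2 * k : ℕ) : ℝ) + 1) := by
    intro i hi
    unfold cat
    rw [if_neg hi]
  have hb1 : ∀ i : ℕ, i < 2 * k → 0 < η * ((i : ℝ) + 1) ∧ η * ((i : ℝ) + 1) < δ ∧ η * ((i : ℝ) + 1) < 1 / 2 := by
    intro i hi
    have hi' : (i : ℝ) + 1 ≤ 2 * k + 1 := by
      have : (i : ℝ) ≤ 2 * k := by exact_mod_cast hi.le
      linarith
    have := mul_le_mul_of_nonneg_left hi' hη0.le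
    exact ⟨by positivity, by linarith [hη.1], by linarith [hη.2]⟩
  have hb2 : ∀ i : ℕ, i < m → δ ≤ δ * ((i : ℝ) + 1) ∧ δ * ((i : ℝ) + 1) < 1 / 2 := by
    intro i hi
    have hi' : (i : ℝ) + 1 ≤ m + 1 := by
      have : (i : ℝ) ≤ m := by exact_mod_cast hi.le
      linarith
    have h3 := mul_le_mul_of_nonneg_left hi' hδ.le
    have h4 : 0 ≤ δ * (i : ℝ) := by positivity
    exact ⟨by linarith, by linarith⟩
  intro i j hi hj hij
  by_cases h : i < 2 * k
  · by_cases h' : j < 2 * k
    · rw [hval i h, hval j h']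
      obtain ⟨h5, h6, h7⟩ := hb1 i h
      obtain ⟨h5', h6', h7'⟩ := hb1 j h'
      refine fi_sin_ne ?_ (abs_lt.2 ⟨by linarith, by linarith⟩)
      intro h8
      have h9 : η * ((i : ℝ) - j) = 0 := by linarith
      rcases mul_eq_zero.1 h9 with h10 | h10
      · exact hη0.ne' h10
      · apply hij
        have : (i : ℝ) = j := by linarith
        exact_mod_cast this
    · rw [hval i h, hval2 j h']
      obtain ⟨h5, h6, h7⟩ := hb1 i h
      obtain ⟨h5', h6'⟩ := hb2 (j - 2 * k) (by omega)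
      refine fi_sin_ne ?_ (abs_lt.2 ⟨by linarith, by linarith⟩)
      intro h8
      linarith
  · by_cases h' : j < 2 * k
    · rw [hval2 i h, hval j h']
      obtain ⟨h5, h6, h7⟩ := hb1 j h'
      obtain ⟨h5', h6'⟩ := hb2 (i - 2 * k) (by omega)
      refine fi_sin_ne ?_ (abs_lt.2 ⟨by linarith, by linarith⟩)
      intro h8
      linarith
    · rw [hval2 i h, hval2 j h']
      obtain ⟨h5, h6⟩ := hb2 (i - 2 * k) (by omega)
      obtain ⟨h5', h6'⟩ := hb2 (j - 2 * k) (by omega)
      refine fi_sin_ne ?_ (abs_lt.2 ⟨by linarith, by linarith⟩)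
      intro h8
      have h9 : δ * (((i - 2 * k : ℕ) : ℝ) - ((j - 2 * k : ℕ) : ℝ)) = 0 := by linarith
      rcases mul_eq_zero.1 h9 with h10 | h10
      · exact hδ.ne' h10
      · apply hij
        have h11 : ((i - 2 * k : ℕ) : ℝ) = ((j - 2 * k : ℕ) : ℝ) := by linarith
        have h12 : i - 2 * k = j - 2 * k := by exact_mod_cast h11
        omega

/-- the value of the arm form at the homogeneous point -/
theorem AF_zero_zero {k : ℕ} (hk : 0 < k) (m : ℕ) :
    AF k k m (fun _ => 0) (fun _ => 0) (fun _ => 0) =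
      (Real.sqrt 3 / 2) ^ ((k + m) * (k + m - 1)) * DD m (2 * k) 0 := by
  have h1 : Tendsto (fun δ : ℝ => AF k k m (fun _ => 0) (fun _ => 0) (fun i => δ * ((i : ℝ) + 1)))
      (𝓝[>] 0) (𝓝 (AF k k m (fun _ => 0) (fun _ => 0) (fun _ => 0))) := by
    have hb : Continuous (fun δ : ℝ => (fun i : ℕ => δ * ((i : ℝ) + 1))) := by
      refine continuous_pi fun i => ?_
      fun_prop
    have hc : Continuous (fun δ : ℝ =>
        AF k k m (fun _ => 0) (fun _ => 0) (fun i => δ * ((i : ℝ) + 1))) := by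
      have h := (AF_continuous k k m).comp ((continuous_const (y := fun _ : ℕ => (0 : ℝ))).prodMk
        ((continuous_const (y := fun _ : ℕ => (0 : ℝ))).prodMk hb))
      simpa only [Function.comp_def] using h
    have := hc.tendsto 0
    simp only [zero_mul] at this
    exact this.mono_left nhdsWithin_le_nhds
  have h2 := (G_tendsto k m).const_mul ((Real.sqrt 3 / 2) ^ (k * (k - 1)))
  have h3 : (Real.sqrt 3 / 2) ^ (k * (k - 1)) *
      ((Real.sqrt 3 / 2) ^ (2 * k * m + m * (m - 1)) * DD m (2 * k) 0) =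
      (Real.sqrt 3 / 2) ^ ((k + m) * (k + m - 1)) * DD m (2 * k) 0 := by
    rw [← mul_assoc, ← pow_add]
    congr 2
    obtain ⟨k', rfl⟩ : ∃ k', k = k' + 1 := ⟨k - 1, by omega⟩
    rcases m with _ | m
    · simp
    · simp only [Nat.add_sub_cancel]
      rw [show k' + 1 + (m + 1) - 1 = k' + (m + 1) by omega]
      ring
  rw [h3] at h2
  refine tendsto_nhds_unique_of_eventuallyEq h1 h2 ?_
  have hev : ∀ᶠ δ : ℝ in 𝓝[>] 0, δ * (m + 1) < 1 / 2 := by
    have hc : Continuous (fun δ : ℝ => δ * (m + 1)) := by fun_prop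
    have ht : Tendsto (fun δ : ℝ => δ * (m + 1)) (𝓝[>] 0) (𝓝 0) := by
      have := hc.tendsto 0
      rw [zero_mul] at this
      exact this.mono_left nhdsWithin_le_nhds
    exact ht.eventually (gt_mem_nhds (by norm_num))
  filter_upwards [hev, self_mem_nhdsWithin] with δ hδ hδ0
  exact fi_step1 hk m hδ0 hδ

/-- probability of the even arm event `F_k` on the cylinder with `L` strands -/
noncomputable def pk (k L : ℕ) : ℝ := bil (arf k k) (P L (fun _ => 0)) (P L (fun _ => 0))

theorem pk_eq {k : ℕ} (hk : 0 < k) (m : ℕ) : pk k (k + m) =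
    (Real.sqrt 3 / 2) ^ ((k + m) * (k + m - 1)) * DD m (2 * k) 0 / Z (k + m) (fun _ => 0) ^ 2 := by
  unfold pk
  rw [arm_value, AF_zero_zero hk]

theorem fi_Z_ne (L : ℕ) : Z L (fun _ => 0) ≠ 0 := Z_ne L (by
  intro j
  rw [abs_zero]
  positivity)

theorem pk_pos {k L : ℕ} (hk : 0 < k) (hL : k ≤ L) : 0 < pk k L := by
  obtain ⟨m, rfl⟩ : ∃ m, L = k + m := ⟨L - k, by omega⟩
  rw [pk_eq hk]
  have h1 := DD_pos0 m (2 * k)
  have h2 := fi_Z_ne (k + m)
  positivity

theorem pk_succ {k L : ℕ} (hk : 0 < k) (hL : k + 1 ≤ L) :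
    pk (k + 1) L = pk k L * tt (2 * k) (L - (k + 1)) := by
  obtain ⟨m, rfl⟩ : ∃ m, L = (k + 1) + m := ⟨L - (k + 1), by omega⟩
  have e : k + 1 + m = k + (m + 1) := by ring
  rw [pk_eq (by omega) m, Nat.add_sub_cancel_left, e, pk_eq hk (m + 1)]
  unfold tt
  have h1 := (DD_pos0 (m + 1) (2 * k)).ne'
  have h2 := fi_Z_ne (k + (m + 1))
  rw [show 2 * (k + 1) = 2 * k + 2 by ring]
  field_simp

/-- EXPONENTS OF ALL EVEN ARM EVENTS ON THE CYLINDER -/
theorem pk_bounds (k : ℕ) (hk : 0 < k) : ∃ c C : ℝ, 0 < c ∧ 0 < C ∧ ∀ L : ℕ, k ≤ L →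
    c * (L : ℝ) ^ (-((4 * (k : ℝ) ^ 2 - 1) / 12)) ≤ pk k L ∧
      pk k L ≤ C * (L : ℝ) ^ (-((4 * (k : ℝ) ^ 2 - 1) / 12)) := by
  induction k with
  | zero => omega
  | succ k ih =>
    rcases Nat.eq_zero_or_pos k with h0 | h0
    · subst h0
      obtain ⟨c, C, hc, hC, h⟩ := RB_bounds
      refine ⟨c, C, hc, hC, fun L hL => ?_⟩
      have h1 := h L hL
      unfold pk
      rw [two_arm_value hL]
      have e : (-((4 * (((0 + 1 : ℕ) : ℝ)) ^ 2 - 1) / 12)) = (-(1 / 4) : ℝ) := by
        norm_num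
      rw [e]
      exact h1
    · obtain ⟨c, C, hc, hC, h⟩ := ih h0
      obtain ⟨c', C', hc', hC', h'⟩ := tt_bounds (2 * k)
      set α : ℝ := (4 * (k : ℝ) ^ 2 - 1) / 12 with hα
      set β : ℝ := ((((2 * k : ℕ) : ℝ)) + 1) / 3 with hβ
      have hβ0 : 0 < β := by rw [hβ]; positivity
      refine ⟨c * c', C * C' * ((k : ℝ) + 1) ^ β, by positivity, by positivity, fun L hL => ?_⟩
      have hLk : k ≤ L := by omega
      have hL0 : (0 : ℝ) < L := by
        have : 0 < L := by omega
        exact_mod_cast this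
      have h1 := h L hLk
      have h2 := h' (L - (k + 1))
      rw [pk_succ h0 hL]
      have hcast : (((L - (k + 1) : ℕ) : ℝ)) + 1 = L - k := by
        rw [Nat.cast_sub hL]
        push_cast
        ring
      rw [hcast] at h2
      have hLk1 : (1 : ℝ) ≤ L - k := by
        have : ((k : ℝ)) + 1 ≤ L := by exact_mod_cast hL
        linarith
      have hLk2 : (L : ℝ) / (k + 1) ≤ L - k := by
        rw [div_le_iff₀ (by positivity)]
        have hk0 : (0 : ℝ) ≤ k := by positivity
        nlinarith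
      have hexp : (L : ℝ) ^ (-((4 * (((k + 1 : ℕ) : ℝ)) ^ 2 - 1) / 12)) = (L : ℝ) ^ (-α) * (L : ℝ) ^ (-β) := by
        rw [← Real.rpow_add hL0]
        congr 1
        rw [hα, hβ]
        push_cast
        ring
      have hlow : (L : ℝ) ^ (-β) ≤ (L - k : ℝ) ^ (-β) := by
        apply Real.rpow_le_rpow_of_nonpos (by linarith)
        · have hk0 : (0 : ℝ) ≤ k := by positivity
          linarith
        · linarith
      have hup : (L - k : ℝ) ^ (-β) ≤ ((k : ℝ) + 1) ^ β * (L : ℝ) ^ (-β) := by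
        have h5 : (L - k : ℝ) ^ (-β) ≤ ((L : ℝ) / (k + 1)) ^ (-β) :=
          Real.rpow_le_rpow_of_nonpos (by positivity) hLk2 (by linarith)
        have h6 : ((L : ℝ) / (k + 1)) ^ (-β) = ((k : ℝ) + 1) ^ β * (L : ℝ) ^ (-β) := by
          rw [Real.div_rpow hL0.le (by positivity), Real.rpow_neg (by positivity : (0 : ℝ) ≤ (k : ℝ) + 1),
            div_inv_eq_mul]
          ring
        rw [h6] at h5
        exact h5
      have hp := pk_pos h0 hLk
      have htp := tt_pos (2 * k) (L - (k + 1))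
      have hA : 0 < (L : ℝ) ^ (-α) := Real.rpow_pos_of_pos hL0 _
      have hB : 0 < (L : ℝ) ^ (-β) := Real.rpow_pos_of_pos hL0 _
      rw [hexp]
      constructor
      · calc c * c' * ((L : ℝ) ^ (-α) * (L : ℝ) ^ (-β)) = (c * (L : ℝ) ^ (-α)) * (c' * (L : ℝ) ^ (-β)) := by ring
          _ ≤ pk k L * tt (2 * k) (L - (k + 1)) := by
            refine mul_le_mul h1.1 ?_ (by positivity) hp.le
            exact (mul_le_mul_of_nonneg_left hlow hc'.le).trans h2.1
      · calc pk k L * tt (2 * k) (L - (k + 1)) ≤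
            (C * (L : ℝ) ^ (-α)) * (C' * (((k : ℝ) + 1) ^ β * (L : ℝ) ^ (-β))) := by
              refine mul_le_mul h1.2 ?_ htp.le (by positivity)
              exact h2.2.trans (mul_le_mul_of_nonneg_left hup hC'.le)
          _ = C * C' * ((k : ℝ) + 1) ^ β * ((L : ℝ) ^ (-α) * (L : ℝ) ^ (-β)) := by ring

end EA
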