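import Pool.Agent.Helper70.EA.DJ
import Pool.Agent.Helper35.EA.Values

/-! MODULE VALUES: cross ratios of the determinants `DD m μ δ`, `δ = 0, 1, 2, 3` (uses only the statements of `DJ`).

All statements together by induction `m-1, m → m+1` (for all `μ`).  With `D_m = DD m`, (DJ) reads (by `DD_neg`, `DD_add6`)
* `δ=0`: `m D_{m+1}(μ,0) D_{m-1}(μ+2,0) = (μ+m+1) D_m(μ,0) D_m(μ+2,0) - (μ+1) D_m(μ+1,1)²`
* `δ=1`: `... - (μ+1) D_m(μ+1,2) D_m(μ+1,0)`, `δ=2`: `... - (μ+1) D_m(μ+1,3) D_m(μ+1,1)`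
* `δ=3`, `m` odd: `m D_{m+1}(μ,3) D_{m-1}(μ+2,3) = (μ+1) D_m(μ+1,2)²` (`D_odd(·,3) = 0`).
With the cross ratios at `m` this becomes `D_{m+1}(μ,δ) D_{m-1}(μ+2,δ) = ρ^δ_m(μ) D_m(μ,δ) D_m(μ+2,δ)` (`δ = 0,1,2`):
`ρ⁰_{2j} = 2(μ+3j+1)/(μ+6j+1)`, `ρ⁰_{2j+1} = (μ+2j+2)(μ+6j+3)(μ+6j+5)/(4(2j+1)(μ+3j+2)(μ+3j+3))`,
`ρ¹_{2j} = 3(μ+2j+1)/(2(μ+3j+1))`, `ρ¹_{2j+1} = (μ+6j+4)/(3(2j+1))`,
`ρ²_{2j} = (μ+6j+1)/(2(μ+3j+1))`, `ρ²_{2j+1} = (μ+2j+2)/(2j+1)`  (j ≥ 1 for even index).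
Then the cross ratios at `m+1` follow, e.g.
`R⁰_{m+1}(μ) = ρ¹_m(μ+1)²/(ρ⁰_m(μ)ρ⁰_m(μ+2)) · R⁰_m(μ) R⁰_m(μ+2)/R⁰_{m-1}(μ+2)`,
`R¹_{m+1}(μ) = ρ²_m(μ+1)ρ⁰_m(μ+1)/(ρ¹_m(μ)ρ¹_m(μ+2)) · R¹_m(μ) R¹_m(μ+2)/R¹_{m-1}(μ+2)`,
`R²_{m+1}` (m odd): from `D_{m+1}(·,3)` by the last DJ, `Q_m` and `R²_{m-1}`; `R³_{m+1}` from `R³_{m-1}`;
`Q_m(μ)` (m odd ≥ 3): `Q_m(μ) Q_{m-2}(μ+2) = ρ¹_{m-1}(μ+1)ρ¹_{m-1}(μ+3)/(ρ²_{m-1}(μ)ρ²_{m-1}(μ+4)) · Mid`, where (e = m-1 even)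
`Mid = D_e(μ+1,1)D_e(μ+3,1)²D_e(μ+5,1)/(D_e(μ,2)D_e(μ+2,2)D_e(μ+4,2)D_e(μ+6,2))
     = R²_e(μ)R²_e(μ+4)R²_e(μ+2)² (μ+e+2)(μ+e+4)/((μ+2)(μ+4))` by `R2` and `R3`.
All statements checked exactly for m ≤ 7, μ ≤ 8. -/
namespace EA
open IP Finset Real

theorem va_cc0 : cc 0 = 2 := by
  unfold cc; simp

theorem va_cc1 : cc 1 = Real.sqrt 3 := by
  unfold cc
  have : Real.pi * ((1 : ℤ) : ℝ) / 6 = Real.pi / 6 := by push_cast; ring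
  rw [this, Real.cos_pi_div_six]; ring

theorem va_cc2 : cc 2 = 1 := by
  unfold cc
  have : Real.pi * ((2 : ℤ) : ℝ) / 6 = Real.pi / 3 := by push_cast; ring
  rw [this, Real.cos_pi_div_three]; ring

/-- the four families of determinants satisfy the abstract relations of `EAV.DJF` -/
theorem va_djf : EAV.DJF (fun m u => DD m u 0) (fun m u => DD m u 1) (fun m u => DD m u 2)
    (fun m u => DD m u 3) := by
  have h4 : ∀ m u, DD m u 4 = (-1) ^ m * DD m u 2 := by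
    intro m u
    have := DD_add6 m u (-2)
    rw [DD_neg] at this
    exact this
  refine ⟨fun u => DD_zero u 0, fun u => DD_zero u 1, fun u => DD_zero u 2, fun u => DD_zero u 3,
    ?_, ?_, ?_, fun m u => DD_three_odd m u, ?_, ?_, ?_, ?_⟩
  · intro u; rw [DD_one, va_cc0]
  · intro u; rw [DD_one, va_cc1]
  · intro u; rw [DD_one, va_cc2]
  · intro m u
    have h := DD_DJ m u 0
    have e1 : ((0 : ℤ) - 1) = -1 := by norm_num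
    have e2 : ((0 : ℤ) + 1) = 1 := by norm_num
    rw [e1, e2, DD_neg] at h
    linear_combination h
  · intro m u
    have h := DD_DJ m u 1
    have e1 : ((1 : ℤ) - 1) = 0 := by norm_num
    have e2 : ((1 : ℤ) + 1) = 2 := by norm_num
    rw [e1, e2] at h
    linear_combination h
  · intro m u
    have h := DD_DJ m u 2
    have e1 : ((2 : ℤ) - 1) = 1 := by norm_num
    have e2 : ((2 : ℤ) + 1) = 3 := by norm_num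
    rw [e1, e2] at h
    linear_combination h
  · intro m u
    have h := DD_DJ m u 3
    have e1 : ((3 : ℤ) - 1) = 2 := by norm_num
    have e2 : ((3 : ℤ) + 1) = 4 := by norm_num
    rw [e1, e2, h4] at h
    linear_combination h

theorem DD_pos0 (m μ : ℕ) : 0 < DD m μ 0 := EAV.a_pos va_djf m μ
theorem DD_pos1 (m μ : ℕ) : 0 < DD m μ 1 := EAV.b_pos va_djf m μ
theorem DD_pos2 (m μ : ℕ) : 0 < DD m μ 2 := EAV.c_pos va_djf m μ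
theorem DD_pos3 (j μ : ℕ) : 0 < DD (2 * j) μ 3 := (EAV.levels va_djf j).1.pe μ

theorem R0e (j μ : ℕ) : ((μ : ℝ) + 6 * j + 1) * DD (2 * j) (μ + 1) 1 ^ 2 =
    (μ + 4 * j + 1) * (DD (2 * j) μ 0 * DD (2 * j) (μ + 2) 0) := by
  have h := (EAV.levels va_djf j).1.x0 μ
  simp only [EAV.X0e] at h
  push_cast at h
  have hne : ((μ : ℝ) + 1 + 3 * (2 * j)) ≠ 0 := by positivity
  rw [sq, h]
  field_simp
  ring
theorem R0o (j μ : ℕ) : 4 * ((μ : ℝ) + 3 * j + 2) * (μ + 3 * j + 3) * DD (2 * j + 1) (μ + 1) 1 ^ 2 =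
    3 * (μ + 2 * j + 2) * (μ + 4 * j + 3) * (DD (2 * j + 1) μ 0 * DD (2 * j + 1) (μ + 2) 0) := by
  have h := (EAV.levels va_djf j).2.x0 μ
  simp only [EAV.X0o] at h
  push_cast at h
  have e1 : 2 * ((μ : ℝ) + 1) + 3 * (2 * j + 1) - 1 = 2 * ((μ : ℝ) + 3 * j + 2) := by ring
  have e2 : 2 * ((μ : ℝ) + 1) + 3 * (2 * j + 1) + 1 = 2 * ((μ : ℝ) + 3 * j + 3) := by ring
  rw [e1, e2] at h
  have hne : ((μ : ℝ) + 3 * j + 2) ≠ 0 := by positivity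
  have hne2 : ((μ : ℝ) + 3 * j + 3) ≠ 0 := by positivity
  rw [sq, h]
  field_simp
  ring
theorem R1e (j μ : ℕ) : ((μ : ℝ) + 3 * j + 1) * (DD (2 * j) (μ + 1) 2 * DD (2 * j) (μ + 1) 0) =
    (μ + 2 * j + 1) * (DD (2 * j) μ 1 * DD (2 * j) (μ + 2) 1) := by
  have h := (EAV.levels va_djf j).1.x1 μ
  simp only [EAV.X1e] at h
  push_cast at h
  have e1 : 2 * ((μ : ℝ) + 1) + 3 * (2 * j) = 2 * ((μ : ℝ) + 3 * j + 1) := by ring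
  rw [e1] at h
  have hne : ((μ : ℝ) + 3 * j + 1) ≠ 0 := by positivity
  rw [h]
  field_simp
  ring
theorem R1o (j μ : ℕ) : 3 * (DD (2 * j + 1) (μ + 1) 2 * DD (2 * j + 1) (μ + 1) 0) =
    2 * (DD (2 * j + 1) μ 1 * DD (2 * j + 1) (μ + 2) 1) := by
  have h := (EAV.levels va_djf j).2.x1 μ
  simp only [EAV.X1o] at h
  rw [h]
  ring
theorem R2e (j μ : ℕ) : ((μ : ℝ) + 3 * j + 1) * (DD (2 * j) (μ + 1) 3 * DD (2 * j) (μ + 1) 1) =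
    (μ + 4 * j + 1) * (DD (2 * j) μ 2 * DD (2 * j) (μ + 2) 2) := by
  have h := (EAV.levels va_djf j).1.x2 μ
  simp only [EAV.X2e] at h
  push_cast at h
  have e1 : 2 * ((μ : ℝ) + 1) + 3 * (2 * j) = 2 * ((μ : ℝ) + 3 * j + 1) := by ring
  rw [e1] at h
  have hne : ((μ : ℝ) + 3 * j + 1) ≠ 0 := by positivity
  rw [h]
  field_simp
  ring
theorem R3e (j μ : ℕ) : ((μ : ℝ) + 1) * DD (2 * j) (μ + 1) 2 ^ 2 =
    (μ + 2 * j + 1) * (DD (2 * j) μ 3 * DD (2 * j) (μ + 2) 3) :=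
  EAV.r3_levels va_djf j μ
theorem Qo (j μ : ℕ) : ((μ : ℝ) + 2) * (μ + 3 * j + 3) * (μ + 3 * j + 4) * (μ + 6 * j + 5) *
      (DD (2 * j + 1) (μ + 1) 1 * DD (2 * j + 1) (μ + 3) 1) =
    3 * (μ + 2 * j + 2) * (μ + 2 * j + 4) * (μ + 4 * j + 3) * (μ + 4 * j + 5) *
      (DD (2 * j + 1) μ 2 * DD (2 * j + 1) (μ + 4) 2) := by
  have h := (EAV.levels va_djf j).2.z μ
  simp only [EAV.Zo] at h
  push_cast at h
  have e1 : 2 * ((μ : ℝ) + 1) + 3 * (2 * j + 1) + 1 = 2 * ((μ : ℝ) + 3 * j + 3) := by ring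
  have e2 : 2 * ((μ : ℝ) + 1) + 3 * (2 * j + 1) + 3 = 2 * ((μ : ℝ) + 3 * j + 4) := by ring
  have e3 : ((μ : ℝ) + 1) + 3 * (2 * j + 1) + 1 = (μ : ℝ) + 6 * j + 5 := by ring
  rw [e1, e2, e3] at h
  have hne : ((μ : ℝ) + 1 + 1) ≠ 0 := by positivity
  have hne1 : ((μ : ℝ) + 3 * j + 3) ≠ 0 := by positivity
  have hne2 : ((μ : ℝ) + 3 * j + 4) ≠ 0 := by positivity
  have hne3 : ((μ : ℝ) + 6 * j + 5) ≠ 0 := by positivity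
  rw [h]
  field_simp
  ring

/-- `ρ⁰` at even index `2j+2` -/
theorem rho_even (j μ : ℕ) : ((μ : ℝ) + 6 * j + 7) * (DD (2 * j + 3) μ 0 * DD (2 * j + 1) (μ + 2) 0) =
    2 * (μ + 3 * j + 4) * (DD (2 * j + 2) μ 0 * DD (2 * j + 2) (μ + 2) 0) := by
  have h := EAV.a_even va_djf j μ
  simp only [EAV.qae] at h
  have e1 : ((μ : ℝ) + 1) + 3 * (2 * j + 2) = (μ : ℝ) + 6 * j + 7 := by ring
  rw [e1] at h
  have hne : ((μ : ℝ) + 6 * j + 7) ≠ 0 := by positivity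
  rw [h]
  field_simp
  ring
/-- `ρ⁰` at odd index `2j+1` -/
theorem rho_odd (j μ : ℕ) :
    4 * (2 * (j : ℝ) + 1) * (μ + 3 * j + 2) * (μ + 3 * j + 3) * (DD (2 * j + 2) μ 0 * DD (2 * j) (μ + 2) 0) =
    (μ + 2 * j + 2) * (μ + 6 * j + 3) * (μ + 6 * j + 5) * (DD (2 * j + 1) μ 0 * DD (2 * j + 1) (μ + 2) 0) := by
  have h := EAV.a_odd va_djf j μ
  simp only [EAV.qao] at h
  have e1 : 2 * ((μ : ℝ) + 1) + 3 * (2 * j + 1) - 1 = 2 * ((μ : ℝ) + 3 * j + 2) := by ring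
  have e2 : 2 * ((μ : ℝ) + 1) + 3 * (2 * j + 1) + 1 = 2 * ((μ : ℝ) + 3 * j + 3) := by ring
  rw [e1, e2] at h
  have hne1 : ((μ : ℝ) + 3 * j + 2) ≠ 0 := by positivity
  have hne2 : ((μ : ℝ) + 3 * j + 3) ≠ 0 := by positivity
  have hne3 : (2 * (j : ℝ) + 1) ≠ 0 := by positivity
  rw [h]
  field_simp
  ring

end EA
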